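import Pool.Agent.W452.FS.Term3

/-!
# Centric subgroups of the local subsystems and triples
-/

namespace Pool.Agent.W452.FS

universe u v

variable {G : Type u} [Group G]

/-- `σ` is empty or a normal chain. -/
structure Chain0 (S : Subgroup G) (σ : Set (Subgroup G)) : Prop where
  ne_bot : ∀ Q ∈ σ, Q ≠ ⊥
  le : ∀ Q ∈ σ, Q ≤ S
  chain : IsChain (· ≤ ·) σ
  normal : ∀ Q ∈ σ, sSup σ ≤ Subgroup.normalizer (Q : Set G)

namespace FusionSystem

variable {F : FusionSystem G} {σ : Set (Subgroup G)} {x : G} {P : Subgroup G}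

theorem IsNormalChain.chain0 (h : F.IsNormalChain σ) : Chain0 F.S σ :=
  ⟨h.ne_bot, h.le, h.chain, h.normal⟩

theorem centric_iff : F.Centric P ↔ P ≤ F.S ∧ ∀ f, F.Mor P f → ∀ c ∈ F.S,
    (∀ y ∈ P, c * f y = f y * c) → c ∈ im f P := by
  refine and_congr_right fun _ => ⟨?_, ?_⟩
  · rintro h f ⟨φ, hφ, hf⟩ c hc hcy
    rw [← Mor.range_eq hf]
    refine h φ hφ (Subgroup.mem_inf.2 ⟨hc, ?_⟩)
    rw [Subgroup.mem_centralizer_iff]
    rintro _ ⟨y, rfl⟩
    rw [hf]
    exact (hcy y y.2).symm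
  · intro h φ hφ c hc
    obtain ⟨hc1, hc2⟩ := Subgroup.mem_inf.1 hc
    rw [Subgroup.mem_centralizer_iff] at hc2
    rw [Mor.range_eq fun y => (toFun_apply φ y).symm]
    refine h _ (mor_of_mem hφ) c hc1 fun y hy => ?_
    rw [toFun_apply' φ hy]
    exact (hc2 _ ⟨_, rfl⟩).symm

theorem IsTriple.centric_local (h : F.IsTriple σ x P) : (F.localSub σ {x}).Centric P := by
  have hS : span σ {x} ≤ F.S := h.span_le.trans (sup_le h.good.sSup_le h.good.P_le)
  rw [centric_iff, localSub_S hS]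
  refine ⟨h.le_stab', fun f hf c hc hcy => ?_⟩
  obtain ⟨-, g, hg, hgf, hgy⟩ := (localSub_mor hS).1 hf
  rw [← im_congr hgy]
  have hle : sSup σ ⊔ P ≤ span σ {x} ⊔ P := sup_le_sup le_sup_left le_rfl
  have hc' := mem_stab.1 hc
  refine h.centric g (hg.mono hle) c hc'.1 ?_ ?_
  · intro Q hQ
    rw [hgf.1 Q hQ]
    exact hc'.2.1 Q hQ
  · intro y hy
    rw [hgy y hy]
    exact hcy y hy

variable [Finite G] {p : ℕ} [Fact p.Prime]

theorem isTriple_of_centric (hsat : F.IsSaturated p) (hp : IsPGroup p F.S) (hne : F.S ≠ ⊥)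
    (hσ : Chain0 F.S σ) (hmax : F.Maximal σ {x}) (hx : x ∈ F.stab σ ∅)
    (hP : (F.localSub σ {x}).Centric P) : F.IsTriple σ x P := by
  have hS := hmax.1
  rw [centric_iff, localSub_S hS] at hP
  obtain ⟨hPst, hP⟩ := hP
  have hxst : x ∈ F.stab σ {x} := by
    have h1 := mem_stab.1 hx
    refine mem_stab.2 ⟨h1.1, h1.2.1, fun y hy => ?_⟩
    rw [Set.mem_singleton_iff.1 hy, FS.cj]
    group
  have hxcomm : ∀ y ∈ P, y * x = x * y := by
    intro y hy
    have h1 := (mem_stab.1 (hPst hy)).2.2 x rfl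
    rw [FS.cj, mul_inv_eq_iff_eq_mul] at h1
    exact h1
  have hPS : P ≤ F.S := hPst.trans (stab_le _ _)
  have hid : (F.localSub σ {x}).Mor P id := Mor.id' (by rw [localSub_S hS]; exact hPst)
  have hxP : x ∈ P := by
    have := hP id hid x hxst fun y hy => (hxcomm y hy).symm
    rwa [im_id] at this
  have hsSup : sSup σ ≤ F.S := _root_.sSup_le hσ.le
  have hspan : span σ {x} ≤ sSup σ ⊔ P := FS.span_le.2
    ⟨fun Q hQ => (le_sSup hQ).trans le_sup_left, fun y hy => by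
      rw [Set.mem_singleton_iff.1 hy]
      exact (le_sup_right : P ≤ sSup σ ⊔ P) hxP⟩
  have hPn : ∀ Q ∈ σ, P ≤ Subgroup.normalizer (Q : Set G) := by
    intro Q hQ y hy
    exact mem_normalizer_iff_im.2 ((mem_stab.1 (hPst hy)).2.1 Q hQ)
  have hcent : ∀ g, F.Mor (sSup σ ⊔ P) g → ∀ c ∈ F.S,
      (∀ Q ∈ σ, im (FS.cj c) (im g Q) = im g Q) → (∀ y ∈ P, c * g y = g y * c) →
      c ∈ im g P := by
    intro g hg c hc hcQ hcP
    have hg1 : F.Mor (span σ {x}) g := hg.mono hspan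
    obtain ⟨h, hh, hhg, -⟩ := hg1.exists_inv
    have him : im g (span σ {x}) = span (im g '' σ) (g '' {x}) := im_span hg1.mulOn le_rfl
    rw [him] at hh
    have hhQ : ∀ Q ∈ σ, im h (im g Q) = Q := by
      intro Q hQ
      have hQ' : Q ≤ span σ {x} := le_span _ hQ
      rw [← im_comp hg1.mulOn Q hQ']
      exact (im_congr fun y hy => hhg y (hQ' hy)).trans (im_id Q)
    have hhx : h (g x) = x := hhg x (mem_span σ rfl)
    have e1 : im h '' (im g '' σ) = σ := by
      ext Q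
      constructor
      · rintro ⟨_, ⟨Q, hQ, rfl⟩, rfl⟩
        rwa [hhQ Q hQ]
      · intro hQ
        exact ⟨im g Q, ⟨Q, hQ, rfl⟩, hhQ Q hQ⟩
    have e2 : h '' (g '' {x}) = {x} := by
      rw [Set.image_singleton, Set.image_singleton, hhx]
    obtain ⟨ρ, hρ, hρQ, hρx⟩ := hmax.extend hsat hp hh e1 e2
    have hρQ' : ∀ Q ∈ σ, im ρ (im g Q) = Q := fun Q hQ => by
      rw [hρQ _ ⟨Q, hQ, rfl⟩, hhQ Q hQ]
    have hρx' : ρ (g x) = x := by rw [hρx _ ⟨x, rfl, rfl⟩, hhx]
    have hcst : c ∈ F.stab (im g '' σ) (g '' {x}) := by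
      refine mem_stab.2 ⟨hc, ?_, ?_⟩
      · rintro _ ⟨Q, hQ, rfl⟩
        exact hcQ Q hQ
      · rintro _ ⟨y, hy, rfl⟩
        rw [Set.mem_singleton_iff.1 hy, FS.cj, mul_inv_eq_iff_eq_mul]
        exact hcP x hxP
    have hgP : ∀ y ∈ P, g y ∈ F.stab (im g '' σ) (g '' {x}) := fun y hy =>
      map_stab' hg hspan ((le_sup_right : P ≤ sSup σ ⊔ P) hy) (hPst hy)
    have hdom : ∀ y ∈ span σ {x} ⊔ P, g y ∈
        span (im g '' σ) (g '' {x}) ⊔ F.stab (im g '' σ) (g '' {x}) := by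
      have hle : im g (span σ {x} ⊔ P) ≤
          span (im g '' σ) (g '' {x}) ⊔ F.stab (im g '' σ) (g '' {x}) := by
        rw [im_sup hg.mulOn hspan le_sup_right, him]
        refine sup_le_sup le_rfl ?_
        intro y hy
        rw [mem_im (hg.mulOn.mono le_sup_right)] at hy
        obtain ⟨z, hz, rfl⟩ := hy
        exact hgP z hz
      intro y hy
      exact hle (mem_im_of_mem g hy)
    have hρg : F.Mor (span σ {x} ⊔ P) (ρ ∘ g) :=
      (hg.mono (sup_le hspan le_sup_right)).comp hρ hdom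
    have hE : (F.localSub σ {x}).Mor P (ρ ∘ g) := by
      refine (localSub_mor hS).2 ⟨hPst, _, hρg, ⟨fun Q hQ => ?_, fun y hy => ?_⟩, fun _ _ => rfl⟩
      · rw [im_comp hg1.mulOn Q (le_span _ hQ), hρQ' Q hQ]
      · rw [Set.mem_singleton_iff.1 hy]
        exact hρx'
    have hρc : ρ c ∈ F.stab σ {x} := by
      have h1 := map_stab' hρ le_sup_left ((le_sup_right : F.stab (im g '' σ) (g '' {x}) ≤ _) hcst)
        hcst
      have e3 : im ρ '' (im g '' σ) = σ := by
        ext Q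
        constructor
        · rintro ⟨_, ⟨Q, hQ, rfl⟩, rfl⟩
          rwa [hρQ' Q hQ]
        · intro hQ
          exact ⟨im g Q, ⟨Q, hQ, rfl⟩, hρQ' Q hQ⟩
      have e4 : ρ '' (g '' {x}) = {x} := by
        rw [Set.image_singleton, Set.image_singleton, hρx']
      rwa [e3, e4] at h1
    have hmemc : c ∈ span (im g '' σ) (g '' {x}) ⊔ F.stab (im g '' σ) (g '' {x}) :=
      (le_sup_right : F.stab (im g '' σ) (g '' {x}) ≤ _) hcst
    have h2 := hP _ hE (ρ c) hρc (by
      intro y hy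
      have hgy : g y ∈ span (im g '' σ) (g '' {x}) ⊔ F.stab (im g '' σ) (g '' {x}) :=
        (le_sup_right : F.stab (im g '' σ) (g '' {x}) ≤ _) (hgP y hy)
      show ρ c * ρ (g y) = ρ (g y) * ρ c
      rw [← hρ.mulOn _ hmemc _ hgy, ← hρ.mulOn _ hgy _ hmemc, hcP y hy])
    rw [mem_im hE.mulOn] at h2
    obtain ⟨y, hy, h3⟩ := h2
    have hgy : g y ∈ span (im g '' σ) (g '' {x}) ⊔ F.stab (im g '' σ) (g '' {x}) :=
      (le_sup_right : F.stab (im g '' σ) (g '' {x}) ≤ _) (hgP y hy)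
    rw [← hρ.inj hgy hmemc h3]
    exact mem_im_of_mem g hy
  refine ⟨⟨hσ.ne_bot, hσ.le, hσ.chain, hσ.normal, hPS, ?_, hPn⟩, hxP, hxcomm, hcent⟩
  intro hbot
  have hid' : F.Mor (sSup σ ⊔ P) id := Mor.id' (sup_le hsSup hPS)
  rcases σ.eq_empty_or_nonempty with hσe | hσe
  · apply hne
    rw [eq_bot_iff]
    intro c hc
    have := hcent id hid' c hc (by rw [hσe]; intro Q hQ; exact absurd hQ (Set.notMem_empty _))
      (by
        intro y hy
        rw [hbot, Subgroup.mem_bot] at hy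
        rw [hy]; simp)
    rwa [im_id, hbot] at this
  · obtain ⟨Q, hQ, hmin⟩ := exists_min_of_chain (Set.toFinite σ) hσe hσ.chain
    apply hσ.ne_bot Q hQ
    rw [eq_bot_iff]
    intro c hc
    have := hcent id hid' c (hσ.le Q hQ hc) (by
        intro R hR
        rw [im_id]
        exact mem_normalizer_iff_im.1 (Subgroup.le_normalizer (hmin R hR hc)))
      (by
        intro y hy
        rw [hbot, Subgroup.mem_bot] at hy
        rw [hy]; simp)
    rwa [im_id, hbot] at this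

end FusionSystem

end Pool.Agent.W452.FS
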