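import Pool.Agent.W452.FS.Comb

/-!
# Existence of fully normalized chains
-/

namespace Pool.Agent.W452.FS

universe u v

variable {G : Type u} [Group G]

/-- Every nonempty finite chain has a least member. -/
theorem exists_min_of_chain {σ : Set (Subgroup G)} (hfin : σ.Finite) (hne : σ.Nonempty)
    (hch : IsChain (· ≤ ·) σ) : ∃ Q ∈ σ, ∀ R ∈ σ, Q ≤ R := by
  obtain ⟨Q, hQ, hmin⟩ := hfin.exists_minimal hne
  refine ⟨Q, hQ, fun R hR => ?_⟩
  rcases hch.total hQ hR with h | h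
  · exact h
  · exact hmin hR h

/-- Every nonempty finite chain has a largest member. -/
theorem sSup_mem_of_chain {σ : Set (Subgroup G)} (hfin : σ.Finite) (hne : σ.Nonempty)
    (hch : IsChain (· ≤ ·) σ) : sSup σ ∈ σ := by
  obtain ⟨Q, hQ, hmax⟩ := hfin.exists_maximal hne
  have : sSup σ = Q := by
    refine le_antisymm (sSup_le fun R hR => ?_) (le_sSup hQ)
    rcases hch.total hQ hR with h | h
    · exact hmax hR h
    · exact h
  rwa [this]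

theorem isChain_image {σ : Set (Subgroup G)} (g : G → G)
    (hch : IsChain (· ≤ ·) σ) : IsChain (· ≤ ·) (im g '' σ) := by
  rintro _ ⟨Q, hQ, rfl⟩ _ ⟨R, hR, rfl⟩ hne
  have hne' : Q ≠ R := fun h => hne (by rw [h])
  rcases hch hQ hR hne' with h | h
  · exact Or.inl (im_mono g h)
  · exact Or.inr (im_mono g h)

namespace FusionSystem

variable {F : FusionSystem G}

/-- If `R` normalizes `Q`, then `g(R)` normalizes `g(Q)`. -/
theorem Mor.im_le_normalizer {D Q R : Subgroup G} {g : G → G} (hg : F.Mor D g) (hQ : Q ≤ D)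
    (hR : R ≤ D) (h : R ≤ Subgroup.normalizer (Q : Set G)) :
    im g R ≤ Subgroup.normalizer (im g Q : Set G) := by
  intro y hy
  rw [mem_im (hg.mulOn.mono hR)] at hy
  obtain ⟨z, hz, rfl⟩ := hy
  have h1 : z ∈ F.stab {Q} ∅ := by
    rw [stab_singleton]
    exact Subgroup.mem_inf.2 ⟨hg.le (hR hz), h hz⟩
  have h2 := map_stab' hg (by rw [span_singleton]; exact hQ) (hR hz) h1
  rw [Set.image_singleton, Set.image_empty, stab_singleton] at h2
  exact (Subgroup.mem_inf.1 h2).2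

theorem Mor.im_ne_bot {D Q : Subgroup G} {g : G → G} (hg : F.Mor D g) (hQ : Q ≤ D)
    (h : Q ≠ ⊥) : im g Q ≠ ⊥ := by
  intro e
  apply h
  have h1 : im g (⊥ : Subgroup G) = ⊥ := by
    rw [eq_bot_iff]
    intro y hy
    rw [mem_im (hg.mulOn.mono bot_le)] at hy
    obtain ⟨z, hz, rfl⟩ := hy
    rw [Subgroup.mem_bot.1 hz, hg.mulOn.one]
    exact Subgroup.one_mem _
  exact hg.im_inj hQ bot_le (e.trans h1.symm)

theorem IsNormalChain.image {σ : Set (Subgroup G)} (h : F.IsNormalChain σ) {D : Subgroup G}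
    {g : G → G} (hg : F.Mor D g) (hD : sSup σ ≤ D) : F.IsNormalChain (im g '' σ) where
  nonempty := h.nonempty.image _
  ne_bot := by
    rintro _ ⟨Q, hQ, rfl⟩
    exact hg.im_ne_bot ((le_sSup hQ).trans hD) (h.ne_bot Q hQ)
  le := by
    rintro _ ⟨Q, hQ, rfl⟩
    exact hg.im_le ((le_sSup hQ).trans hD)
  chain := isChain_image g h.chain
  normal := by
    rintro _ ⟨Q, hQ, rfl⟩
    rw [← im_sSup hg.mulOn fun Q hQ => (le_sSup hQ).trans hD]
    exact hg.im_le_normalizer ((le_sSup hQ).trans hD) hD (h.normal Q hQ)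

theorem chainIso_iff {σ τ : Set (Subgroup G)} : F.ChainIso σ τ ↔
    ∃ f, F.Mor (sSup σ) f ∧ im f '' σ = τ := by
  have key : ∀ (φ : ↥(sSup σ) →* G) (f : G → G), (∀ y : ↥(sSup σ), φ y = f y) →
      (fun Q : Subgroup G => (Q.subgroupOf (sSup σ)).map φ) '' σ = im f '' σ := by
    intro φ f h
    refine Set.image_congr fun Q hQ => ?_
    have hm : MulOn (sSup σ) f := fun y hy z hz => by
      rw [← h ⟨y, hy⟩, ← h ⟨z, hz⟩, ← map_mul, h]; rfl
    ext y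
    rw [mem_im (hm.mono (le_sSup hQ)), Subgroup.mem_map]
    constructor
    · rintro ⟨z, hz, rfl⟩
      exact ⟨z, hz, (h z).symm⟩
    · rintro ⟨z, hz, rfl⟩
      exact ⟨⟨z, le_sSup hQ hz⟩, hz, h _⟩
  constructor
  · rintro ⟨φ, hφ, rfl⟩
    exact ⟨toFun φ, mor_of_mem hφ, (key φ _ fun y => (toFun_apply φ y).symm).symm⟩
  · rintro ⟨f, ⟨φ, hφ, h⟩, rfl⟩
    exact ⟨φ, hφ, key φ f h⟩

variable [Finite G] {p : ℕ} [Fact p.Prime]

theorem exists_fullyNormalizedChain_aux (hsat : F.IsSaturated p) (hp : IsPGroup p F.S) :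
    ∀ (n : ℕ) (𝒬 σ : Set (Subgroup G)), σ.ncard = n → F.Maximal 𝒬 ∅ → σ.Nonempty →
      (∀ Q ∈ σ, Q ≤ F.stab 𝒬 ∅) → IsChain (· ≤ ·) σ →
      (∀ Q ∈ σ, sSup σ ≤ Subgroup.normalizer (Q : Set G)) →
      ∃ g, (F.localSub 𝒬 ∅).Mor (sSup σ) g ∧
        FullyNormalizedChain (F.localSub 𝒬 ∅) (im g '' σ) := by
  intro n
  induction n using Nat.strong_induction_on with
  | _ n ih =>
  intro 𝒬 σ hn hmax hne hle hch hnorm
  have hfin : σ.Finite := Set.toFinite _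
  obtain ⟨Q₀, hQ₀, hmin⟩ := exists_min_of_chain hfin hne hch
  set E := F.localSub 𝒬 ∅ with hE
  have hES : E.S = F.stab 𝒬 ∅ := localSub_S hmax.1
  set M := sSup σ with hM
  have hMle : M ≤ F.stab 𝒬 ∅ := sSup_le hle
  obtain ⟨g₀, hg₀, hg₀n⟩ := E.exists_fullyNormalized (R := Q₀) (by rw [hES]; exact hle _ hQ₀)
  set Q₁ := im g₀ Q₀ with hQ₁
  have hmax1 : F.Maximal (𝒬 ∪ {Q₁}) ∅ := by
    have := Maximal.union hsat hp hmax hg₀n.maximal
    rwa [Set.union_empty] at this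
  obtain ⟨-, h₀, hh₀, hh₀f, hh₀g⟩ := (localSub_mor hmax.1).1 hg₀
  have hsp : span (𝒬 ∪ {Q₀}) ∅ = span 𝒬 ∅ ⊔ Q₀ := by
    have := span_union 𝒬 {Q₀} ∅ ∅
    rwa [Set.union_empty, span_singleton] at this
  rw [← hsp] at hh₀
  have him₀ : im h₀ Q₀ = Q₁ := im_congr hh₀g
  have e1 : im h₀ '' (𝒬 ∪ {Q₀}) = 𝒬 ∪ {Q₁} := by
    rw [Set.image_union, hh₀f.image_eq, Set.image_singleton, him₀]
  obtain ⟨ρ, hρ, hρQ, -⟩ := hmax1.extend hsat hp hh₀ e1 (Set.image_empty _)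
  have hρf : FixesFun 𝒬 ∅ ρ := by
    refine ⟨fun Q hQ => ?_, fun x hx => absurd hx (Set.notMem_empty _)⟩
    rw [hρQ Q (Or.inl hQ), hh₀f.1 Q hQ]
  have hρ₀ : im ρ Q₀ = Q₁ := by rw [hρQ Q₀ (Or.inr rfl), him₀]
  have hMst : M ≤ F.stab (𝒬 ∪ {Q₀}) ∅ := by
    intro y hy
    have h1 := mem_stab.1 (hMle hy)
    have h2 := mem_normalizer_iff_im.1 (hnorm Q₀ hQ₀ hy)
    refine mem_stab.2 ⟨h1.1, ?_, fun x hx => absurd hx (Set.notMem_empty _)⟩
    rintro Q (hQ | hQ)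
    · exact h1.2.1 Q hQ
    · rw [Set.mem_singleton_iff.1 hQ]; exact h2
  have hρM : F.Mor (span 𝒬 ∅ ⊔ M) ρ := by
    refine hρ.mono (sup_le_sup ?_ hMst)
    rw [hsp]; exact le_sup_left
  have hEρ : E.Mor M ρ := (localSub_mor hmax.1).2 ⟨hMle, ρ, hρM, hρf, fun _ _ => rfl⟩
  by_cases hσ : (σ \ {Q₀}).Nonempty
  swap
  · have hσ' : σ = {Q₀} := by
      rw [Set.not_nonempty_iff_eq_empty, Set.sdiff_eq_empty] at hσ
      exact Set.Subset.antisymm hσ (by simpa using hQ₀)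
    refine ⟨ρ, hEρ, ?_⟩
    rw [hσ', Set.image_singleton, hρ₀]
    exact FullyNormalizedChain.single E Q₁ hg₀n
  set σ' := σ \ {Q₀} with hσ'
  have hsub : σ' ⊆ σ := Set.sdiff_subset
  have hM' : sSup σ' = M := by
    refine le_antisymm (sSup_le_sSup hsub) ?_
    refine sSup_le fun R hR => ?_
    by_cases h : R = Q₀
    · obtain ⟨R', hR'⟩ := hσ
      rw [h]
      exact (hmin R' (hsub hR')).trans (le_sSup hR')
    · exact le_sSup ⟨hR, h⟩
  set τ := im ρ '' σ' with hτ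
  have hMρ : MulOn M ρ := hEρ.mulOn
  have hleM : ∀ Q ∈ σ, Q ≤ M := fun Q hQ => le_sSup hQ
  have hτM : sSup τ = im ρ M := by
    rw [hτ, ← im_sSup hMρ fun Q hQ => hleM Q (hsub hQ), hM']
  have hst1 : im ρ M ≤ F.stab (𝒬 ∪ {Q₁}) ∅ := by
    intro y hy
    rw [mem_im hMρ] at hy
    obtain ⟨z, hz, rfl⟩ := hy
    have h1 := map_stab' hρ le_sup_left
      ((le_sup_right : F.stab (𝒬 ∪ {Q₀}) ∅ ≤ _) (hMst hz)) (hMst hz)
    rwa [Set.image_empty, Set.image_union, hρf.image_eq, Set.image_singleton, hρ₀] at h1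
  have hcard : σ'.ncard < n := by
    rw [← hn]
    exact Set.ncard_lt_ncard (Set.sdiff_ssubset_left_iff.2 ⟨Q₀, hQ₀, rfl⟩)
  have hcardτ : τ.ncard < n := (Set.ncard_image_le (Set.toFinite _)).trans_lt hcard
  obtain ⟨g₁, hg₁, hg₁n⟩ := ih τ.ncard hcardτ (𝒬 ∪ {Q₁}) τ rfl hmax1 (hσ.image _)
    (by
      rintro _ ⟨Q, hQ, rfl⟩
      exact (im_mono ρ (hleM Q (hsub hQ))).trans hst1)
    (isChain_image ρ (hch.mono hsub))
    (by
      rintro _ ⟨Q, hQ, rfl⟩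
      rw [hτM]
      exact hEρ.im_le_normalizer (hleM Q (hsub hQ)) le_rfl (hnorm Q (hsub hQ)))
  have hg₁E : E.Mor (sSup τ) g₁ := localSub_mono hmax1.1 Set.subset_union_left subset_rfl hg₁
  have hcomp : E.Mor M (g₁ ∘ ρ) := hEρ.comp hg₁E fun y hy => by
    rw [hτM]; exact mem_im_of_mem ρ hy
  have hQ₁τ : Q₁ ≤ sSup τ := by
    rw [hτM, ← hρ₀]
    exact im_mono ρ (hleM Q₀ hQ₀)
  have hg₁Q : im g₁ Q₁ = Q₁ := by
    obtain ⟨-, k, hk, hkf, hkg⟩ := (localSub_mor hmax1.1).1 hg₁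
    rw [← hkf.1 Q₁ (Or.inr rfl)]
    conv_rhs => rw [hkf.1 Q₁ (Or.inr rfl)]
    rw [hkf.1 Q₁ (Or.inr rfl)]
    exact (im_congr fun y hy => (hkg y (hQ₁τ hy)).symm).trans (hkf.1 Q₁ (Or.inr rfl))
  refine ⟨g₁ ∘ ρ, hcomp, ?_⟩
  have himage : im (g₁ ∘ ρ) '' σ = insert Q₁ (im g₁ '' τ) := by
    have : σ = insert Q₀ σ' := by
      rw [hσ', Set.insert_sdiff_singleton, Set.insert_eq_of_mem hQ₀]
    rw [this, Set.image_insert_eq, im_comp hMρ Q₀ (hleM Q₀ hQ₀), hρ₀, hg₁Q, hτ,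
      image_im_comp hMρ fun Q hQ => hleM Q (hsub hQ)]
  rw [himage]
  refine FullyNormalizedChain.cons E Q₁ _ ((hσ.image _).image _) ?_ hg₀n ?_
  · rintro _ ⟨_, ⟨R, hR, rfl⟩, rfl⟩
    have hRσ := hsub hR
    rw [← hg₁Q, ← hρ₀, ← im_comp hMρ Q₀ (hleM Q₀ hQ₀), ← im_comp hMρ R (hleM R hRσ)]
    refine lt_of_le_of_ne (im_mono _ (hmin R hRσ)) fun h => ?_
    exact hR.2 (hcomp.im_inj (hleM Q₀ hQ₀) (hleM R hRσ) h).symm
  · have h2 : E.localSub {Q₁} ∅ = F.localSub (𝒬 ∪ {Q₁}) ∅ := by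
      rw [hE, localSub_localSub hmax.1, Set.union_empty]
      have := hg₀n.maximal.1
      rwa [hES] at this
    rw [h2]
    exact hg₁n

/-- Every normal chain is `F`-isomorphic to a fully normalized one. -/
theorem exists_fullyNormalizedChain (hsat : F.IsSaturated p) (hp : IsPGroup p F.S)
    {σ : Set (Subgroup G)} (hσ : F.IsNormalChain σ) :
    ∃ g, F.Mor (sSup σ) g ∧ FullyNormalizedChain F (im g '' σ) := by
  have hst : F.stab ∅ ∅ = F.S := by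
    rw [← localSub_S (F := F) (𝒬 := ∅) (X := ∅) (by simp [span]), localSub_empty]
  have := exists_fullyNormalizedChain_aux hsat hp σ.ncard ∅ σ rfl maximal_empty hσ.nonempty
    (by rw [hst]; exact hσ.le) hσ.chain hσ.normal
  rwa [localSub_empty] at this

end FusionSystem

end Pool.Agent.W452.FS
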