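import Pool.Agent.W452.FS.Ext2

/-!
# Combining data, fully normalized chains
-/

namespace Pool.Agent.W452.FS

universe u v

variable {G : Type u} [Group G]

theorem span_union (𝒬 𝒬' : Set (Subgroup G)) (X X' : Set G) :
    span (𝒬 ∪ 𝒬') (X ∪ X') = span 𝒬 X ⊔ span 𝒬' X' := by
  rw [span, span, span, sSup_union, Subgroup.closure_union]
  ac_rfl

theorem fixesFun_union {𝒬 𝒬' : Set (Subgroup G)} {X X' : Set G} {f : G → G} :
    FixesFun (𝒬 ∪ 𝒬') (X ∪ X') f ↔ FixesFun 𝒬 X f ∧ FixesFun 𝒬' X' f := by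
  constructor
  · intro h
    exact ⟨⟨fun Q hQ => h.1 Q (Or.inl hQ), fun x hx => h.2 x (Or.inl hx)⟩,
      ⟨fun Q hQ => h.1 Q (Or.inr hQ), fun x hx => h.2 x (Or.inr hx)⟩⟩
  · rintro ⟨h, h'⟩
    refine ⟨?_, ?_⟩
    · rintro Q (hQ | hQ)
      · exact h.1 Q hQ
      · exact h'.1 Q hQ
    · rintro x (hx | hx)
      · exact h.2 x hx
      · exact h'.2 x hx

theorem FixesFun.mono {𝒬 𝒬' : Set (Subgroup G)} {X X' : Set G} {f : G → G}
    (h : FixesFun 𝒬' X' f) (h1 : 𝒬 ⊆ 𝒬') (h2 : X ⊆ X') : FixesFun 𝒬 X f :=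
  ⟨fun Q hQ => h.1 Q (h1 hQ), fun x hx => h.2 x (h2 hx)⟩

namespace FusionSystem

theorem ext_mor {F F' : FusionSystem G} (hS : F.S = F'.S)
    (h : ∀ P f, F.Mor P f ↔ F'.Mor P f) : F = F' := by
  refine ext' hS ?_
  ext P φ
  rw [← mor_toFun_iff, ← mor_toFun_iff, h]

variable {F : FusionSystem G}

theorem localSub_stab {𝒬 𝒬' : Set (Subgroup G)} {X X' : Set G} (hS : span 𝒬 X ≤ F.S) :
    (F.localSub 𝒬 X).stab 𝒬' X' = F.stab (𝒬 ∪ 𝒬') (X ∪ X') := by
  ext s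
  rw [mem_stab, localSub_S hS, mem_stab, mem_stab, fixesFun_union, and_assoc]

theorem localSub_localSub {𝒬 𝒬' : Set (Subgroup G)} {X X' : Set G} (hS : span 𝒬 X ≤ F.S)
    (hS' : span 𝒬' X' ≤ F.stab 𝒬 X) :
    (F.localSub 𝒬 X).localSub 𝒬' X' = F.localSub (𝒬 ∪ 𝒬') (X ∪ X') := by
  have hS2 : span 𝒬' X' ≤ (F.localSub 𝒬 X).S := by rwa [localSub_S hS]
  have hS3 : span (𝒬 ∪ 𝒬') (X ∪ X') ≤ F.S := by
    rw [span_union]
    exact sup_le hS (hS'.trans (stab_le _ _))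
  refine ext_mor ?_ fun P f => ?_
  · rw [localSub_S hS2, localSub_stab hS, localSub_S hS3]
  · rw [localSub_mor hS2, localSub_stab hS, localSub_mor hS3]
    refine and_congr_right fun hP => ⟨?_, ?_⟩
    · rintro ⟨g, hg, hg1, hg2⟩
      rw [localSub_mor hS] at hg
      obtain ⟨h1, g', h2, h3, h4⟩ := hg
      refine ⟨g', ?_, ?_, fun y hy => ?_⟩
      · rwa [span_union, sup_assoc]
      · exact fixesFun_union.2 ⟨h3, hg1.congr fun y hy => (h4 y
          ((le_sup_left : span 𝒬' X' ≤ span 𝒬' X' ⊔ P) hy)).symm⟩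
      · rw [h4 y ((le_sup_right : P ≤ span 𝒬' X' ⊔ P) hy), hg2 y hy]
    · rintro ⟨g, hg, hg1, hg2⟩
      rw [fixesFun_union] at hg1
      refine ⟨g, (localSub_mor hS).2 ⟨sup_le hS' ?_, g, ?_, hg1.1, fun _ _ => rfl⟩, hg1.2, hg2⟩
      · refine hP.trans ?_
        rw [← localSub_stab hS, ← localSub_S hS]
        exact stab_le _ _
      · rwa [span_union, sup_assoc] at hg

theorem localSub_empty : F.localSub ∅ ∅ = F := by
  have hsp : span (∅ : Set (Subgroup G)) ∅ = ⊥ := by simp [span]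
  have hS : span (∅ : Set (Subgroup G)) ∅ ≤ F.S := by rw [hsp]; exact bot_le
  have h1 : F.stab ∅ ∅ = F.S := by
    ext s
    rw [mem_stab]
    exact ⟨fun h => h.1, fun h => ⟨h, fun Q hQ => absurd hQ (Set.notMem_empty _),
      fun Q hQ => absurd hQ (Set.notMem_empty _)⟩⟩
  refine ext_mor ?_ fun P f => ?_
  · rw [localSub_S hS, h1]
  · rw [localSub_mor hS, h1, hsp, bot_sup_eq]
    constructor
    · rintro ⟨hP, g, hg, -, h⟩
      exact hg.congr h
    · intro h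
      exact ⟨h.le, f, h, ⟨fun Q hQ => absurd hQ (Set.notMem_empty _),
        fun Q hQ => absurd hQ (Set.notMem_empty _)⟩, fun _ _ => rfl⟩

theorem localSub_mono {𝒬 𝒬' : Set (Subgroup G)} {X X' : Set G} (hS' : span 𝒬' X' ≤ F.S)
    (h1 : 𝒬 ⊆ 𝒬') (h2 : X ⊆ X') {P : Subgroup G} {f : G → G}
    (h : (F.localSub 𝒬' X').Mor P f) : (F.localSub 𝒬 X).Mor P f := by
  have hsp : span 𝒬 X ≤ span 𝒬' X' := span_le.2
    ⟨fun Q hQ => le_span _ (h1 hQ), fun x hx => mem_span _ (h2 hx)⟩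
  have hS : span 𝒬 X ≤ F.S := hsp.trans hS'
  rw [localSub_mor hS'] at h
  obtain ⟨hP, g, hg, hg1, hg2⟩ := h
  refine (localSub_mor hS).2 ⟨?_, g, hg.mono (sup_le_sup hsp le_rfl), hg1.mono h1 h2, hg2⟩
  intro y hy
  have := mem_stab.1 (hP hy)
  exact mem_stab.2 ⟨this.1, this.2.mono h1 h2⟩

/-- A morphism maps the stabilizer of the data into the stabilizer of the image. -/
theorem map_stab' {𝒬 : Set (Subgroup G)} {X : Set G} {R : Subgroup G} {g : G → G}
    (hg : F.Mor R g) (hR : span 𝒬 X ≤ R) {y : G} (hy : y ∈ R)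
    (hy' : y ∈ F.stab 𝒬 X) : g y ∈ F.stab (im g '' 𝒬) (g '' X) := by
  rw [mem_stab] at hy' ⊢
  refine ⟨hg.map_mem hy, ?_⟩
  have hR' := span_le.1 hR
  have key : ∀ z ∈ R, FS.cj (g y) (g z) = g (FS.cj y z) := by
    intro z hz
    rw [FS.cj, FS.cj, hg.mulOn _ (R.mul_mem hy hz) _ (R.inv_mem hy), hg.mulOn _ hy _ hz,
      hg.mulOn.inv hy]
  refine ⟨?_, ?_⟩
  · rintro _ ⟨Q, hQ, rfl⟩
    have h1 : im (FS.cj (g y) ∘ g) Q = im (g ∘ FS.cj y) Q :=
      im_congr fun z hz => key z (hR'.1 Q hQ hz)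
    rwa [im_comp (hg.mulOn.mono (hR'.1 Q hQ)) Q le_rfl, im_comp (mulOn_cj y Q) Q le_rfl,
      hy'.2.1 Q hQ] at h1
  · rintro _ ⟨x, hx, rfl⟩
    have := key x (hR'.2 x hx)
    rwa [hy'.2.2 x hx] at this

theorem image_im_comp {R : Subgroup G} {f g : G → G} (hf : MulOn R f) {𝒬 : Set (Subgroup G)}
    (h : ∀ Q ∈ 𝒬, Q ≤ R) : im g '' (im f '' 𝒬) = im (g ∘ f) '' 𝒬 := by
  rw [Set.image_image]
  exact Set.image_congr fun Q hQ => (im_comp hf Q (h Q hQ)).symm

variable [Finite G]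

theorem card_stab_le {𝒬 : Set (Subgroup G)} {X : Set G} {R : Subgroup G} {g : G → G}
    (hg : F.Mor R g) (hR : span 𝒬 X ≤ R) (hR' : F.stab 𝒬 X ≤ R) :
    Nat.card (F.stab 𝒬 X) ≤ Nat.card (F.stab (im g '' 𝒬) (g '' X)) := by
  refine Nat.card_le_card_of_injective
    (fun y : F.stab 𝒬 X => (⟨g y, map_stab' hg hR (hR' y.2) y.2⟩ :
      F.stab (im g '' 𝒬) (g '' X))) ?_
  intro y z h
  exact Subtype.ext (hg.inj (hR' y.2) (hR' z.2) (congrArg Subtype.val h))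

variable {p : ℕ} [Fact p.Prime]

theorem Maximal.union (hsat : F.IsSaturated p) (hp : IsPGroup p F.S)
    {𝒬 𝒬' : Set (Subgroup G)} {X X' : Set G} (hmax : F.Maximal 𝒬 X)
    (hmax' : (F.localSub 𝒬 X).Maximal 𝒬' X') : F.Maximal (𝒬 ∪ 𝒬') (X ∪ X') := by
  have hS := hmax.1
  have hS' := hmax'.1
  rw [localSub_S hS] at hS'
  refine ⟨?_, fun g hg => ?_⟩
  · rw [span_union]
    exact sup_le hS (hS'.trans (stab_le _ _))
  rw [span_union] at hg
  have hg1 : F.Mor (span 𝒬 X) g := hg.mono le_sup_left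
  obtain ⟨h, hh, hhg, hgh⟩ := hg1.exists_inv
  have him : im g (span 𝒬 X) = span (im g '' 𝒬) (g '' X) := im_span hg1.mulOn le_rfl
  rw [him] at hh
  have hhQ : ∀ Q ∈ 𝒬, im h (im g Q) = Q := by
    intro Q hQ
    have hQ' : Q ≤ span 𝒬 X := le_span X hQ
    rw [← im_comp hg1.mulOn Q hQ']
    exact (im_congr fun y hy => hhg y (hQ' hy)).trans (im_id Q)
  have hhx : ∀ x ∈ X, h (g x) = x := fun x hx => hhg x (mem_span 𝒬 hx)
  have e1 : im h '' (im g '' 𝒬) = 𝒬 := by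
    ext Q
    constructor
    · rintro ⟨_, ⟨Q, hQ, rfl⟩, rfl⟩
      rwa [hhQ Q hQ]
    · intro hQ
      exact ⟨im g Q, ⟨Q, hQ, rfl⟩, hhQ Q hQ⟩
  have e2 : h '' (g '' X) = X := by
    ext x
    constructor
    · rintro ⟨_, ⟨x, hx, rfl⟩, rfl⟩
      rwa [hhx x hx]
    · intro hx
      exact ⟨g x, ⟨x, hx, rfl⟩, hhx x hx⟩
  obtain ⟨ρ, hρ, hρQ, hρx⟩ := hmax.extend hsat hp hh e1 e2
  -- the composite `ρ ∘ g`
  have hdom : ∀ y ∈ span 𝒬 X ⊔ span 𝒬' X',
      g y ∈ span (im g '' 𝒬) (g '' X) ⊔ F.stab (im g '' 𝒬) (g '' X) := by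
    have : im g (span 𝒬 X ⊔ span 𝒬' X') ≤
        span (im g '' 𝒬) (g '' X) ⊔ F.stab (im g '' 𝒬) (g '' X) := by
      rw [im_sup hg.mulOn le_sup_left le_sup_right, him]
      refine sup_le_sup le_rfl ?_
      intro y hy
      rw [mem_im (hg.mulOn.mono le_sup_right)] at hy
      obtain ⟨z, hz, rfl⟩ := hy
      exact map_stab' hg le_sup_left
        ((le_sup_right : span 𝒬' X' ≤ span 𝒬 X ⊔ span 𝒬' X') hz) (hS' hz)
    intro y hy
    exact this (mem_im_of_mem g hy)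
  have hρg : F.Mor (span 𝒬 X ⊔ span 𝒬' X') (ρ ∘ g) := hg.comp hρ hdom
  have hfix : FixesFun 𝒬 X (ρ ∘ g) := by
    refine ⟨fun Q hQ => ?_, fun x hx => ?_⟩
    · rw [im_comp hg1.mulOn Q (le_span X hQ), hρQ _ ⟨Q, hQ, rfl⟩, hhQ Q hQ]
    · show ρ (g x) = x
      rw [hρx _ ⟨x, hx, rfl⟩, hhx x hx]
  have hEmor : (F.localSub 𝒬 X).Mor (span 𝒬' X') (ρ ∘ g) :=
    (localSub_mor hS).2 ⟨hS', _, hρg, hfix, fun _ _ => rfl⟩
  have hle := hmax'.2 _ hEmor
  rw [localSub_stab hS, localSub_stab hS] at hle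
  refine le_trans ?_ hle
  have hspan : span (im g '' (𝒬 ∪ 𝒬')) (g '' (X ∪ X')) ≤
      span (im g '' 𝒬) (g '' X) ⊔ F.stab (im g '' 𝒬) (g '' X) := by
    rw [← im_span (R := span 𝒬 X ⊔ span 𝒬' X') hg.mulOn (by rw [span_union])]
    intro y hy
    rw [mem_im (by rw [span_union]; exact hg.mulOn)] at hy
    obtain ⟨z, hz, rfl⟩ := hy
    rw [span_union] at hz
    exact hdom z hz
  have hstab : F.stab (im g '' (𝒬 ∪ 𝒬')) (g '' (X ∪ X')) ≤
      span (im g '' 𝒬) (g '' X) ⊔ F.stab (im g '' 𝒬) (g '' X) := by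
    refine le_trans ?_ le_sup_right
    intro y hy
    rw [mem_stab] at hy ⊢
    exact ⟨hy.1, hy.2.mono (Set.image_mono Set.subset_union_left)
      (Set.image_mono Set.subset_union_left)⟩
  have h5 := card_stab_le hρ hspan hstab
  have e3 : im ρ '' (im g '' (𝒬 ∪ 𝒬')) = 𝒬 ∪ im (ρ ∘ g) '' 𝒬' := by
    rw [image_im_comp hg.mulOn, Set.image_union]
    · congr 1
      ext Q
      constructor
      · rintro ⟨Q, hQ, rfl⟩
        rwa [hfix.1 Q hQ]
      · intro hQ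
        exact ⟨Q, hQ, hfix.1 Q hQ⟩
    · rintro Q (hQ | hQ)
      · exact (le_span X hQ).trans le_sup_left
      · exact (le_span X' hQ).trans le_sup_right
  have e4 : ρ '' (g '' (X ∪ X')) = X ∪ (ρ ∘ g) '' X' := by
    rw [Set.image_image, Set.image_union]
    congr 1
    ext x
    constructor
    · rintro ⟨x, hx, rfl⟩
      have := hfix.2 x hx
      show (ρ ∘ g) x ∈ X
      rwa [this]
    · intro hx
      exact ⟨x, hx, hfix.2 x hx⟩
  rwa [e3, e4] at h5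

omit [Finite G] in
theorem stab_singleton (Q : Subgroup G) :
    F.stab {Q} ∅ = F.S ⊓ Subgroup.normalizer (Q : Set G) := by
  ext s
  rw [mem_stab, Subgroup.mem_inf, mem_normalizer_iff_im]
  refine and_congr_right fun _ => ⟨fun h => h.1 Q rfl, fun h => ⟨?_, ?_⟩⟩
  · rintro _ rfl
    exact h
  · intro x hx
    exact absurd hx (Set.notMem_empty _)

omit [Finite G] in
theorem stab_elem (x : G) :
    F.stab ∅ {x} = F.S ⊓ Subgroup.centralizer (Subgroup.zpowers x : Set G) := by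
  ext s
  rw [mem_stab, Subgroup.mem_inf, Subgroup.mem_centralizer_iff]
  refine and_congr_right fun _ => ⟨fun h y hy => ?_, fun h => ⟨?_, ?_⟩⟩
  · have h1 : s * x * s⁻¹ = x := h.2 x rfl
    have h2 : Commute s x := by
      rw [mul_inv_eq_iff_eq_mul] at h1
      exact h1
    obtain ⟨n, rfl⟩ := hy
    exact (h2.zpow_right n).symm
  · intro Q hQ
    exact absurd hQ (Set.notMem_empty _)
  · intro z hz
    rw [Set.mem_singleton_iff.1 hz, FS.cj, mul_inv_eq_iff_eq_mul]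
    exact (h x (Subgroup.mem_zpowers x)).symm

omit [Finite G] in
theorem span_singleton (Q : Subgroup G) : span {Q} ∅ = Q := by simp [span]

omit [Finite G] in
theorem span_elem (x : G) : span ∅ {x} = Subgroup.zpowers x := by
  simp [span, Subgroup.zpowers_eq_closure]

omit [Finite G] in
theorem FullyNormalized.maximal {Q : Subgroup G} (h : F.FullyNormalized Q) :
    F.Maximal {Q} ∅ := by
  refine ⟨by rw [span_singleton]; exact h.1, fun g hg => ?_⟩
  rw [span_singleton] at hg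
  obtain ⟨φ, hφ, h1⟩ := hg
  have h2 := h.2 φ hφ
  rw [Mor.range_eq h1] at h2
  rwa [Set.image_singleton, Set.image_empty, stab_singleton, stab_singleton]

omit [Finite G] in
theorem FullyCentralized.maximal {x : G} (h : F.FullyCentralized (Subgroup.zpowers x)) :
    F.Maximal ∅ {x} := by
  refine ⟨by rw [span_elem]; exact h.1, fun g hg => ?_⟩
  rw [span_elem] at hg
  have hm := hg.mulOn
  obtain ⟨φ, hφ, h1⟩ := hg
  have h2 := h.2 φ hφ
  rw [Mor.range_eq h1, im_zpowers hm] at h2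
  rwa [Set.image_singleton, Set.image_empty, stab_elem, stab_elem]

omit [Finite G] in
theorem maximal_empty : F.Maximal ∅ ∅ := by
  refine ⟨by simp [span], fun g _ => ?_⟩
  rw [Set.image_empty, Set.image_empty]

theorem _root_.Pool.Agent.W452.FS.FullyNormalizedChain.maximal_aux {F E : FusionSystem G}
    (hsat : F.IsSaturated p)
    (hp : IsPGroup p F.S) {σ : Set (Subgroup G)} (h : FullyNormalizedChain E σ) :
    ∀ 𝒬, E = F.localSub 𝒬 ∅ → F.Maximal 𝒬 ∅ → F.Maximal (𝒬 ∪ σ) ∅ := by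
  induction h with
  | single E Q h =>
    rintro 𝒬 rfl hmax
    have := Maximal.union hsat hp hmax h.maximal
    rwa [Set.union_empty] at this
  | cons E Q σ hσ hQ h h' ih =>
    rintro 𝒬 rfl hmax
    have h1 := Maximal.union hsat hp hmax h.maximal
    rw [Set.union_empty] at h1
    have h2 : (F.localSub 𝒬 ∅).localSub {Q} ∅ = F.localSub (𝒬 ∪ {Q}) ∅ := by
      rw [localSub_localSub hmax.1, Set.union_empty]
      have := h.maximal.1
      rwa [localSub_S hmax.1] at this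
    have := ih (𝒬 ∪ {Q}) h2 h1
    rwa [Set.union_assoc, Set.singleton_union] at this

theorem _root_.Pool.Agent.W452.FS.FullyNormalizedChain.maximal (hsat : F.IsSaturated p)
    (hp : IsPGroup p F.S) {σ : Set (Subgroup G)} (h : FullyNormalizedChain F σ) :
    F.Maximal σ ∅ := by
  have := h.maximal_aux hsat hp ∅ localSub_empty.symm maximal_empty
  rwa [Set.empty_union] at this

end FusionSystem

end Pool.Agent.W452.FS
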