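import Pool.Agent.W452.FS.P1

/-!
# Fusion systems
-/

namespace Pool.Agent.W452.FS

universe u v

/-- `z(k_α H)` for a class `α ∈ H²(H, kˣ)`: the number of isomorphism classes of simple
projective modules of the group algebra of `H` twisted by (a cocycle representing) `α`. -/
noncomputable def zTw {k : Type u} [Field k] {H : Type v} [Group H] (α : H2 k H) : ℕ :=
  Quotient.lift (s := cocycleSetoid k H) (fun a => zNum (TwAlg a))
    (by exact zNum_cohomologous) α

/-- The homomorphism `P → G`, `y ↦ s y s⁻¹`. -/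
def conjHom {G : Type u} [Group G] (s : G) (P : Subgroup G) : P →* G :=
  (MulAut.conj s).toMonoidHom.comp P.subtype

/-- A fusion system on a subgroup `S` of `G`: for every subgroup `P ≤ S` a set `Hom P` of
injective group homomorphisms `φ : P → G` with image in `S`
(the morphisms `P → Q` are those with image in `Q`), containing the conjugations by elements of
`S` and closed under composition and under taking inverses `φ(P) → P`. -/
structure FusionSystem (G : Type u) [Group G] where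
  /-- the underlying group of the fusion system -/
  S : Subgroup G
  /-- the morphisms with source `P` -/
  Hom : (P : Subgroup G) → Set (P →* G)
  source_le : ∀ {P : Subgroup G} {φ : P →* G}, φ ∈ Hom P → P ≤ S
  range_le : ∀ {P : Subgroup G} {φ : P →* G}, φ ∈ Hom P → φ.range ≤ S
  injective : ∀ {P : Subgroup G} {φ : P →* G}, φ ∈ Hom P → Function.Injective φ
  conj_mem : ∀ {s : G}, s ∈ S → ∀ {P : Subgroup G}, P ≤ S → conjHom s P ∈ Hom P
  comp_mem : ∀ {P Q : Subgroup G} {φ : P →* G} {ψ : Q →* G}, φ ∈ Hom P → ψ ∈ Hom Q →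
    ∀ h : (∀ y, φ y ∈ Q), ψ.comp (φ.codRestrict Q h) ∈ Hom P
  inv_mem : ∀ {P : Subgroup G} {φ : P →* G}, φ ∈ Hom P → ∀ ψ : φ.range →* G,
    (∀ y : P, ψ ⟨φ y, ⟨y, rfl⟩⟩ = y) → ψ ∈ Hom φ.range

namespace FusionSystem

variable {G : Type u} [Group G] (F : FusionSystem G)

/-- `Q` is fully `F`-normalized: `|N_S(Q)| ≥ |N_S(φ(Q))|` for every morphism `φ` with
source `Q`. -/
def FullyNormalized (Q : Subgroup G) : Prop :=
  Q ≤ F.S ∧ ∀ φ ∈ F.Hom Q, Nat.card ↥(F.S ⊓ Subgroup.normalizer (φ.range : Set G)) ≤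
    Nat.card ↥(F.S ⊓ Subgroup.normalizer (Q : Set G))

/-- `Q` is fully `F`-centralized: `|C_S(Q)| ≥ |C_S(φ(Q))|` for every morphism `φ` with
source `Q`. -/
def FullyCentralized (Q : Subgroup G) : Prop :=
  Q ≤ F.S ∧ ∀ φ ∈ F.Hom Q, Nat.card ↥(F.S ⊓ Subgroup.centralizer (φ.range : Set G)) ≤
    Nat.card ↥(F.S ⊓ Subgroup.centralizer (Q : Set G))

/-- `Q` is `F`-centric: `C_S(φ(Q)) ≤ φ(Q)` for every morphism `φ` with source `Q`. -/
def Centric (Q : Subgroup G) : Prop :=
  Q ≤ F.S ∧ ∀ φ ∈ F.Hom Q, F.S ⊓ Subgroup.centralizer (φ.range : Set G) ≤ φ.range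

end FusionSystem

end Pool.Agent.W452.FS
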