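import Pool.Agent.W452.FS.P2

/-!
# Automorphism groups, saturation, local data
-/

namespace Pool.Agent.W452.FS

universe u v

variable {G : Type u} [Group G]

/-- The group `Inn(Q)` of inner automorphisms of `Q`. -/
def Inn (Q : Subgroup G) : Subgroup (MulAut Q) := (MulAut.conj : Q →* MulAut Q).range

instance (Q : Subgroup G) : (Inn Q).Normal := by
  constructor
  rintro _ ⟨y, rfl⟩ χ
  refine ⟨χ y, ?_⟩
  ext z
  simp [MulAut.conj_apply]

/-- The group `B/(B ∩ Inn(Q))` of outer automorphisms given by a group `B` of automorphisms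
of `Q`. -/
def OutOf {Q : Subgroup G} (B : Subgroup (MulAut Q)) : Type u := B ⧸ (Inn Q).subgroupOf B

instance {Q : Subgroup G} (B : Subgroup (MulAut Q)) : Group (OutOf B) :=
  QuotientGroup.Quotient.group _

/-- The projection `B → B/(B ∩ Inn(Q))`. -/
def toOut {Q : Subgroup G} (B : Subgroup (MulAut Q)) : B →* OutOf B :=
  QuotientGroup.mk' _

/-- The subgroup generated by the members of `𝒬` and the elements of `X`. -/
def span (𝒬 : Set (Subgroup G)) (X : Set G) : Subgroup G := sSup 𝒬 ⊔ Subgroup.closure X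

/-- The homomorphism `ψ : R → G` stabilizes every member of `𝒬` and fixes every element of `X`
(contained in `R`). -/
def Fixes (𝒬 : Set (Subgroup G)) (X : Set G) {R : Subgroup G} (ψ : R →* G) : Prop :=
  (∀ Q ∈ 𝒬, (Q.subgroupOf R).map ψ = Q) ∧ ∀ y : R, (y : G) ∈ X → ψ y = y

/-- The homomorphism `f : Out(B) → Out(C)`, where `B ≤ Aut(P)` and `C ≤ Aut(R)`, sends the class
of `χ'` to the class of `χ` whenever `χ ∈ C` stabilizes every member of `𝒬`, fixes every element
of `X` and extends `χ' ∈ B`. -/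
def IsInduced (𝒬 : Set (Subgroup G)) (X : Set G) {P R : Subgroup G} (B : Subgroup (MulAut P))
    (C : Subgroup (MulAut R)) (f : OutOf B →* OutOf C) : Prop :=
  ∀ (χ' : B) (χ : C), Fixes 𝒬 X (R.subtype.comp χ.1.toMonoidHom) →
    (∀ (y : P) (z : R), (z : G) = y → (χ.1 z : G) = χ'.1 y) → f (toOut B χ') = toOut C χ

/-- The homomorphism `c : Out(B) → Out(C)`, where `B ≤ Aut(P)` and `C ≤ Aut(Q)`, is induced by
conjugation with the isomorphism `e : P → Q`. -/
def IsConjMap {P Q : Subgroup G} (e : P ≃* Q) (B : Subgroup (MulAut P))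
    (C : Subgroup (MulAut Q)) (c : OutOf B →* OutOf C) : Prop :=
  ∀ (χ : B) (χ' : C), χ'.1 = MulAut.congr e χ.1 → c (toOut B χ) = toOut C χ'

namespace FusionSystem

variable (F : FusionSystem G)

/-- `Aut_F(Q)` (for `Q ≤ S`). -/
def Aut (Q : Subgroup G) : Subgroup (MulAut Q) where
  carrier := {χ | Q ≤ F.S → Q.subtype.comp χ.toMonoidHom ∈ F.Hom Q}
  one_mem' := by exact hom_one
  mul_mem' := by exact fun h h' hQ => hom_mul (h hQ) (h' hQ)
  inv_mem' := by exact fun h hQ => hom_inv (h hQ)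

/-- `Out_F(Q) = Aut_F(Q)/Inn(Q)`. -/
abbrev Out (Q : Subgroup G) : Type u := OutOf (F.Aut Q)

/-- `Aut_S(Q)`: the automorphisms of `Q` given by conjugation with elements of `S`. -/
def AutS (Q : Subgroup G) : Subgroup (MulAut Q) where
  carrier := {χ | ∃ s ∈ F.S, ∀ y : Q, (χ y : G) = s * y * s⁻¹}
  one_mem' := ⟨1, F.S.one_mem, fun y => by simp⟩
  mul_mem' := by
    rintro χ χ' ⟨s, hs, h⟩ ⟨s', hs', h'⟩
    refine ⟨s * s', F.S.mul_mem hs hs', fun y => ?_⟩
    rw [MulAut.mul_apply, h, h']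
    group
  inv_mem' := by
    rintro χ ⟨s, hs, h⟩
    refine ⟨s⁻¹, F.S.inv_mem hs, fun y => ?_⟩
    have := h (χ⁻¹ y)
    rw [MulAut.apply_inv_self] at this
    rw [this]
    group

/-- `N_φ`: the elements `s ∈ N_S(Q)` such that `φ c_s φ⁻¹` is the conjugation of `φ(Q)` by some
element `t` of `S`. -/
def extensor {Q : Subgroup G} (φ : Q →* G) : Subgroup G where
  carrier := {s | s ∈ F.S ∧ s ∈ Subgroup.normalizer (Q : Set G) ∧
    ∃ t ∈ F.S, ∀ y z : Q, (z : G) = s * y * s⁻¹ → φ z = t * φ y * t⁻¹}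
  one_mem' := ⟨F.S.one_mem, Subgroup.one_mem _, 1, F.S.one_mem, fun y z h => by
    have : z = y := Subtype.ext (by simpa using h)
    simp [this]⟩
  mul_mem' := by
    rintro s s' ⟨hs, hn, t, ht, h⟩ ⟨hs', hn', t', ht', h'⟩
    refine ⟨F.S.mul_mem hs hs', Subgroup.mul_mem _ hn hn', t * t', F.S.mul_mem ht ht', ?_⟩
    intro y z hz
    have h1 : s' * y * s'⁻¹ ∈ Q := (hn' y).1 y.2
    rw [h ⟨_, h1⟩ z (by rw [hz]; group), h' y ⟨_, h1⟩ rfl]
    group
  inv_mem' := by
    rintro s ⟨hs, hn, t, ht, h⟩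
    refine ⟨F.S.inv_mem hs, Subgroup.inv_mem _ hn, t⁻¹, F.S.inv_mem ht, ?_⟩
    intro y z hz
    have := h z y (by rw [hz]; group)
    rw [this]
    group

/-- Saturation of a fusion system (with respect to the prime `p`), in the formulation of
Broto, Levi and Oliver. -/
structure IsSaturated (p : ℕ) : Prop where
  /-- every fully normalized subgroup `Q` is fully centralized, and `Aut_S(Q)` is a Sylow
  `p`-subgroup of `Aut_F(Q)` (it is a `p`-group as `S` is, and its index is prime to `p`) -/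
  sylow : ∀ Q : Subgroup G, F.FullyNormalized Q →
    F.FullyCentralized Q ∧ ¬ p ∣ (F.AutS Q).relIndex (F.Aut Q)
  /-- every morphism `φ` with source `Q` and fully centralized image extends to `N_φ` -/
  extend : ∀ (Q : Subgroup G), ∀ φ ∈ F.Hom Q, F.FullyCentralized φ.range →
    ∃ ψ ∈ F.Hom (F.extensor φ), ∀ (y : Q) (z : F.extensor φ), (z : G) = y → ψ z = φ y

/-- The isomorphism `e : P ≃ Q` belongs to the fusion system `F`. -/
def IsIso {P Q : Subgroup G} (e : P ≃* Q) : Prop := Q.subtype.comp e.toMonoidHom ∈ F.Hom P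

/-- The subgroups `P` and `Q` are `F`-isomorphic. -/
def Iso (P Q : Subgroup G) : Prop := ∃ φ ∈ F.Hom P, φ.range = Q

/-- The elements `x` and `y` are `F`-conjugate: some morphism of `F` with source `⟨x⟩` sends `x`
to `y`. -/
def Conj (x y : G) : Prop := ∃ φ ∈ F.Hom (Subgroup.zpowers x), φ ⟨x, Subgroup.mem_zpowers x⟩ = y

/-- `N_S(𝒬) ∩ C_S(X)`: the elements of `S` which normalize every member of `𝒬` and commute with
every element of `X`. -/
def stab (𝒬 : Set (Subgroup G)) (X : Set G) : Subgroup G :=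
  F.S ⊓ (⨅ Q ∈ 𝒬, Subgroup.normalizer (Q : Set G)) ⊓ Subgroup.centralizer X

/-- The morphisms of the local subsystem, see `localSub`. -/
def localHom (𝒬 : Set (Subgroup G)) (X : Set G) (P : Subgroup G) : Set (P →* G) :=
  {φ | P ≤ F.stab 𝒬 X ∧ ∃ ψ ∈ F.Hom (span 𝒬 X ⊔ P), Fixes 𝒬 X ψ ∧
    ∀ (y : P) (z : ↥(span 𝒬 X ⊔ P)), (z : G) = y → ψ z = φ y}

end FusionSystem

end Pool.Agent.W452.FS
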