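import Pool.Agent.W452.FS.P3

/-!
# Local subsystems, families of classes, `w`, `k`, and chains
-/

namespace Pool.Agent.W452.FS

universe u v

variable {G : Type u} [Group G]

namespace FusionSystem

variable (F : FusionSystem G)

open Classical in
/-- The local subsystem of `F` given by a set `𝒬` of subgroups of `S` and a set `X` of elements
of `S`: the fusion system on `N_S(𝒬) ∩ C_S(X)` whose morphisms with source `P` are those
`φ : P → G` which extend to a morphism of `F` with source `⟨𝒬, X, P⟩` which stabilizes every
member of `𝒬` and fixes every element of `X`.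

* For `𝒬 = {Q}` and `X = ∅` this is the normalizer `N_F(Q)`;
* if `𝒬` is the set of members of a chain `σ` and `X = ∅`, this is the normalizer `N_F(σ)`;
* for `𝒬 = ∅` and `X = {x}` this is the centralizer `C_F(x)`.

(If `𝒬` and `X` are not contained in `S` we put the junk value `F`.) -/
noncomputable def localSub (𝒬 : Set (Subgroup G)) (X : Set G) : FusionSystem G :=
  if hS : span 𝒬 X ≤ F.S then
    { S := F.stab 𝒬 X
      Hom := F.localHom 𝒬 X
      source_le := by exact fun h => h.1
      range_le := by exact local_range_le
      injective := by exact local_injective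
      conj_mem := by exact local_conj_mem hS
      comp_mem := by exact local_comp_mem
      inv_mem := by exact local_inv_mem }
  else F

/-! ### Families of cohomology classes -/

/-- A family of classes `α_Q ∈ H²(Out_F(Q), kˣ)`. (We let `Q` run over all subgroups; only the
values at the `F`-centric subgroups `Q` play a role.) -/
def Family (k : Type v) [Field k] : Type (max u v) := ∀ Q : Subgroup G, H2 k (F.Out Q)

variable {F}

/-- The family is invariant under the isomorphisms `e : P → Q` of the fusion system between
centric subgroups: `α_P` is the pullback of `α_Q` along the map `Out_F(P) → Out_F(Q)` induced by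
conjugation with `e`. -/
def Family.IsoInvariant {k : Type v} [Field k] (α : F.Family k) : Prop :=
  ∀ (P Q : Subgroup G) (e : P ≃* Q), F.Centric P → F.Centric Q → F.IsIso e →
    ∀ c, IsConjMap e (F.Aut P) (F.Aut Q) c → (α Q).comap c = α P

/-- The restriction of the family `α` to the local subsystem `E = F.localSub 𝒬 X` along the
functor `P ↦ RP`, `R = ⟨𝒬, X⟩`: its value at `P` is the pullback of `α_{RP}` along the
homomorphism `Out_E(P) → Out_F(RP)` sending the class of `χ|_P` to the class of `χ` (for
`χ ∈ Aut_F(RP)` stabilizing every member of `𝒬` and fixing every element of `X`); here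
`Classical.epsilon` picks the homomorphism with this property. -/
noncomputable def Family.res {k : Type v} [Field k] (α : F.Family k) (𝒬 : Set (Subgroup G))
    (X : Set G) : (F.localSub 𝒬 X).Family k := fun P =>
  (α (span 𝒬 X ⊔ P)).comap
    (Classical.epsilon (IsInduced 𝒬 X ((F.localSub 𝒬 X).Aut P) (F.Aut (span 𝒬 X ⊔ P))))

variable (F)

/-! ### The numbers `w(F, α)` and `k(F, α)` -/

/-- `F`-isomorphism of `F`-centric subgroups, as a setoid. -/
def centricSetoid : Setoid {Q : Subgroup G // F.Centric Q} :=
  ⟨fun P Q => F.Iso P.1 Q.1, by exact F.iso_equivalence⟩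

/-- `w(F, α) = ∑_Q z(k_α Out_F(Q))`, where `Q` runs over representatives of the
`F`-isomorphism classes of `F`-centric subgroups. -/
noncomputable def w {k : Type v} [Field k] (α : F.Family k) : ℕ :=
  ∑ᶠ c : Quotient F.centricSetoid, zTw (α c.out.1)

/-- `F`-conjugacy of elements of `S`, as a setoid. -/
def elemSetoid : Setoid {x : G // x ∈ F.S} :=
  ⟨fun x y => F.Conj x.1 y.1, by exact F.conj_equivalence⟩

/-- A representative `x` of the conjugacy class `c` of elements of `S` such that `⟨x⟩` is fully
`F`-centralized. -/
noncomputable def rep (c : Quotient F.elemSetoid) : G :=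
  Classical.epsilon fun x => (∃ h : x ∈ F.S, Quotient.mk F.elemSetoid ⟨x, h⟩ = c) ∧
    F.FullyCentralized (Subgroup.zpowers x)

/-- `k(F, α) = ∑_x w(C_F(x), α(x))`, where `x` runs over representatives of the `F`-conjugacy
classes of elements of `S` such that `⟨x⟩` is fully `F`-centralized, `C_F(x)` is the centralizer
of `x` in `F`, and `α(x)` is the restriction of `α` along the functor `R ↦ ⟨x⟩R`. -/
noncomputable def k {k : Type v} [Field k] (α : F.Family k) : ℕ :=
  ∑ᶠ c : Quotient F.elemSetoid, (F.localSub ∅ {F.rep c}).w (α.res ∅ {F.rep c})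

/-! ### Chains -/

/-- A normal chain of nontrivial subgroups of `S`, given as the set `σ = {Q₀ < ⋯ < Q_m}` of its
members; every member is normal in the largest member `sSup σ`. Its length is
`|σ| = m = σ.ncard - 1`. -/
structure IsNormalChain (σ : Set (Subgroup G)) : Prop where
  nonempty : σ.Nonempty
  ne_bot : ∀ Q ∈ σ, Q ≠ ⊥
  le : ∀ Q ∈ σ, Q ≤ F.S
  chain : IsChain (· ≤ ·) σ
  normal : ∀ Q ∈ σ, sSup σ ≤ Subgroup.normalizer (Q : Set G)

/-- The chains `σ` and `τ` are `F`-isomorphic: there is a morphism `φ` of `F` with source the
largest member of `σ` which sends the members of `σ` to the members of `τ`. -/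
def ChainIso (σ τ : Set (Subgroup G)) : Prop :=
  ∃ φ ∈ F.Hom (sSup σ), (fun Q => (Q.subgroupOf (sSup σ)).map φ) '' σ = τ

/-- Fully `F`-normalized chains: `σ = (Q₀ < ⋯ < Q_m)` is fully `F`-normalized if `Q₀` is fully
`F`-normalized and either `m = 0` or `(Q₁ < ⋯ < Q_m)` is fully `N_F(Q₀)`-normalized. -/
inductive _root_.Pool.Agent.W452.FS.FullyNormalizedChain :
    FusionSystem G → Set (Subgroup G) → Prop
  | single (F : FusionSystem G) (Q : Subgroup G) (h : F.FullyNormalized Q) :
      FullyNormalizedChain F {Q}
  | cons (F : FusionSystem G) (Q : Subgroup G) (σ : Set (Subgroup G)) (hσ : σ.Nonempty)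
      (hQ : ∀ R ∈ σ, Q < R) (h : F.FullyNormalized Q)
      (h' : FullyNormalizedChain (F.localSub {Q} ∅) σ) : FullyNormalizedChain F (insert Q σ)

end FusionSystem

end Pool.Agent.W452.FS
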