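import Pool.Agent.W452.FS.P4

/-!
# Saturation: extension of morphisms
-/

namespace Pool.Agent.W452.FS

universe u v

variable {G : Type u} [Group G]

/-- A `p`-group mapping to `A` is conjugate into any subgroup of index prime to `p`. -/
theorem exists_conj_le {A : Type*} [Group A] [Finite A] {N : Type*} [Group N] {p : ℕ}
    [Fact p.Prime] (hN : IsPGroup p N) (j : N →* A) (H : Subgroup A) (hH : ¬ p ∣ H.index) :
    ∃ a : A, ∀ n, a⁻¹ * j n * a ∈ H := by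
  let : MulAction N (A ⧸ H) := MulAction.compHom (A ⧸ H) j
  obtain ⟨x, hx⟩ := hN.nonempty_fixed_point_of_prime_not_dvd_card (A ⧸ H) hH
  obtain ⟨a, rfl⟩ := QuotientGroup.mk_surjective x
  refine ⟨a, fun n => ?_⟩
  have h : (QuotientGroup.mk (j n * a) : A ⧸ H) = QuotientGroup.mk a := hx n
  have h2 := QuotientGroup.eq.1 h.symm
  rwa [← mul_assoc] at h2

namespace FusionSystem

variable {F : FusionSystem G}

theorem Mor.exists_equiv {P Q : Subgroup G} {f : G → G} (h : F.Mor P f) (hQ : im f P = Q) :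
    ∃ e : P ≃* Q, F.IsIso e ∧ ∀ y : P, (e y : G) = f y := by
  subst hQ
  obtain ⟨φ, hφ, hf⟩ := h
  have hr : φ.range = im f P := Mor.range_eq hf
  let e := (MonoidHom.ofInjective (F.injective hφ)).trans (MulEquiv.subgroupCongr hr)
  refine ⟨e, ?_, fun y => ?_⟩
  · exact Mor.mem_hom ⟨φ, hφ, hf⟩ _ (fun y => hf y)
  · exact hf y

/-- An automorphism of `R` as a map `G → G`. -/
noncomputable def af {R : Subgroup G} (χ : MulAut R) : G → G :=
  toFun (R.subtype.comp χ.toMonoidHom)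

theorem af_apply {R : Subgroup G} (χ : MulAut R) (y : R) : af χ y = χ y := toFun_apply _ y

theorem af_apply' {R : Subgroup G} (χ : MulAut R) {y : G} (hy : y ∈ R) :
    af χ y = χ ⟨y, hy⟩ := toFun_apply' _ hy

theorem af_mem {R : Subgroup G} (χ : MulAut R) {y : G} (hy : y ∈ R) : af χ y ∈ R := by
  rw [af_apply' χ hy]; exact (χ _).2

theorem mulOn_af {R : Subgroup G} (χ : MulAut R) : MulOn R (af χ) := by
  intro y hy z hz
  rw [af_apply' χ hy, af_apply' χ hz, af_apply' χ (R.mul_mem hy hz)]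
  have : (⟨y * z, R.mul_mem hy hz⟩ : R) = ⟨y, hy⟩ * ⟨z, hz⟩ := rfl
  rw [this, map_mul]
  rfl

theorem im_af {R : Subgroup G} (χ : MulAut R) : im (af χ) R = R := by
  ext y
  rw [mem_im (mulOn_af χ)]
  constructor
  · rintro ⟨z, hz, rfl⟩
    exact af_mem χ hz
  · intro hy
    refine ⟨(χ⁻¹ ⟨y, hy⟩ : R), (χ⁻¹ ⟨y, hy⟩ : R).2, ?_⟩
    rw [af_apply, MulAut.apply_inv_self]

theorem af_mul {R : Subgroup G} (χ χ' : MulAut R) {y : G} (hy : y ∈ R) :
    af (χ * χ') y = af χ (af χ' y) := by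
  rw [af_apply' _ hy, af_apply' _ hy, af_apply]
  rfl

theorem af_inv_af {R : Subgroup G} (χ : MulAut R) {y : G} (hy : y ∈ R) :
    af χ⁻¹ (af χ y) = y := by
  rw [← af_mul χ⁻¹ χ hy, inv_mul_cancel, af_apply' _ hy]
  rfl

theorem mem_aut_iff' {R : Subgroup G} (hR : R ≤ F.S) {χ : MulAut R} :
    χ ∈ F.Aut R ↔ F.Mor R (af χ) := by
  rw [mem_aut_iff hR, af, mor_toFun_iff]

theorem fixes_af {𝒬 : Set (Subgroup G)} {X : Set G} {R : Subgroup G} (χ : MulAut R)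
    (h : span 𝒬 X ≤ R) : Fixes 𝒬 X (R.subtype.comp χ.toMonoidHom) ↔ FixesFun 𝒬 X (af χ) :=
  fixes_iff (fun y => (af_apply χ y).symm) h

/-- The automorphisms in `F` of `R` which fix `𝒬` and `X` (both contained in `R`). -/
def autFix (F : FusionSystem G) (R : Subgroup G) (𝒬 : Set (Subgroup G)) (X : Set G)
    (hR : span 𝒬 X ≤ R) : Subgroup (MulAut R) where
  carrier := {χ | χ ∈ F.Aut R ∧ FixesFun 𝒬 X (af χ)}
  one_mem' := by
    refine ⟨Subgroup.one_mem _, FixesFun.congr (f := id) ⟨fun Q _ => im_id Q, fun _ _ => rfl⟩ ?_⟩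
    intro y hy
    rw [af_apply' _ (hR hy)]; rfl
  mul_mem' := by
    rintro χ χ' ⟨h1, h2⟩ ⟨h1', h2'⟩
    refine ⟨Subgroup.mul_mem _ h1 h1', (h2'.comp hR (mulOn_af χ') h2).congr fun y hy => ?_⟩
    rw [af_mul _ _ (hR hy)]; rfl
  inv_mem' := by
    rintro χ ⟨h1, h2⟩
    refine ⟨Subgroup.inv_mem _ h1, fun Q hQ => ?_, fun y hy => ?_⟩
    · have hQR := (span_le.1 hR).1 Q hQ
      have h3 : im (af χ⁻¹ ∘ af χ) Q = im id Q := im_congr fun y hy => af_inv_af χ (hQR hy)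
      rwa [im_comp (mulOn_af χ) Q hQR, h2.1 Q hQ, im_id] at h3
    · have := af_inv_af χ ((span_le.1 hR).2 y hy)
      rwa [h2.2 y hy] at this

theorem stab_le (𝒬 : Set (Subgroup G)) (X : Set G) : F.stab 𝒬 X ≤ F.S :=
  inf_le_left.trans inf_le_left

theorem mem_stab' {𝒬 : Set (Subgroup G)} {X : Set G} {s : G} (hs : s ∈ F.stab 𝒬 X) :
    s ∈ Subgroup.normalizer ((span 𝒬 X : Subgroup G) : Set G) := by
  rw [mem_stab] at hs
  rw [mem_normalizer_iff_im, im_span (mulOn_cj s (span 𝒬 X)) le_rfl, hs.2.image_eq,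
    hs.2.image_eq']

/-- The action of `N_S(𝒬) ∩ C_S(X)` on `⟨𝒬, X⟩` by conjugation. -/
def conjOn (F : FusionSystem G) (𝒬 : Set (Subgroup G)) (X : Set G) :
    F.stab 𝒬 X →* MulAut (span 𝒬 X) :=
  (Subgroup.normalizerMonoidHom (span 𝒬 X)).comp
    (Subgroup.inclusion fun _ hs => mem_stab' hs)

theorem conjOn_apply {𝒬 : Set (Subgroup G)} {X : Set G} (s : F.stab 𝒬 X) (y : span 𝒬 X) :
    (F.conjOn 𝒬 X s y : G) = s * y * (s : G)⁻¹ := rfl

theorem conjOn_mem_autFix {𝒬 : Set (Subgroup G)} {X : Set G} (hS : span 𝒬 X ≤ F.S)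
    (s : F.stab 𝒬 X) : F.conjOn 𝒬 X s ∈ F.autFix (span 𝒬 X) 𝒬 X le_rfl := by
  have hs := mem_stab.1 s.2
  have h : ∀ y ∈ span 𝒬 X, cj (s : G) y = af (F.conjOn 𝒬 X s) y := by
    intro y hy
    rw [af_apply' _ hy]; rfl
  exact ⟨(mem_aut_iff' hS).2 ((Mor.cj hs.1 hS).congr h), hs.2.congr h⟩

theorem card_centralizer_le_of_fullyCentralized {R : Subgroup G} {f : G → G} (h : F.Mor R f)
    (hc : F.FullyCentralized (im f R)) :
    Nat.card ↥(F.S ⊓ Subgroup.centralizer (R : Set G)) ≤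
      Nat.card ↥(F.S ⊓ Subgroup.centralizer (im f R : Set G)) := by
  obtain ⟨g, hg, hgf, -⟩ := h.exists_inv
  obtain ⟨φ, hφ, h1⟩ := hg
  have := hc.2 φ hφ
  have h2 : φ.range = R := by
    rw [Mor.range_eq h1, ← im_comp h.mulOn R le_rfl]
    exact (im_congr hgf).trans (im_id R)
  rwa [h2] at this

theorem fullyCentralized_of_card {R : Subgroup G} {f : G → G} (h : F.Mor R f)
    (hc : F.FullyCentralized (im f R))
    (hle : Nat.card ↥(F.S ⊓ Subgroup.centralizer (im f R : Set G)) ≤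
      Nat.card ↥(F.S ⊓ Subgroup.centralizer (R : Set G))) : F.FullyCentralized R := by
  refine ⟨h.le, fun φ hφ => ?_⟩
  obtain ⟨g, hg, hgf, hfg⟩ := h.exists_inv
  have h1 := mor_of_mem hφ
  have h2 : F.Mor (im f R) (toFun φ ∘ g) := hg.comp h1 fun y hy => (hfg y hy).1
  obtain ⟨ψ, hψ, h3⟩ := h2
  have h4 := hc.2 ψ hψ
  have h5 : ψ.range = φ.range := by
    rw [Mor.range_eq h3, Mor.range_eq (fun y => (toFun_apply φ y).symm), im_comp hg.mulOn _ le_rfl]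
    congr 1
    rw [← im_comp h.mulOn R le_rfl]
    exact (im_congr hgf).trans (im_id R)
  rw [h5] at h4
  exact h4.trans hle

variable [Finite G] {p : ℕ} [Fact p.Prime]

theorem exists_fullyNormalized {R : Subgroup G} (hR : R ≤ F.S) :
    ∃ f, F.Mor R f ∧ F.FullyNormalized (im f R) := by
  classical
  obtain ⟨f, hf, hmax⟩ := Set.exists_max_image {f : G → G | F.Mor R f}
    (fun f => Nat.card ↥(F.S ⊓ Subgroup.normalizer (im f R : Set G))) (Set.toFinite _)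
    ⟨id, Mor.id' hR⟩
  refine ⟨f, hf, hf.im_le le_rfl, fun φ hφ => ?_⟩
  have h1 := mor_of_mem hφ
  have h2 : F.Mor R (toFun φ ∘ f) := hf.comp h1 fun y hy => mem_im_of_mem f hy
  have h3 := hmax _ h2
  rw [Mor.range_eq (fun y => (toFun_apply φ y).symm), ← im_comp hf.mulOn R le_rfl]
  exact h3

/-- A `p`-group of automorphisms of `R` in `F` can be moved into `S`. -/
theorem exists_mor_conj (hsat : F.IsSaturated p) {R : Subgroup G} (hR : R ≤ F.S)
    {N : Type*} [Group N] (hN : IsPGroup p N) (j : N →* MulAut R) (hj : ∀ n, j n ∈ F.Aut R) :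
    ∃ ψ, F.Mor R ψ ∧ F.FullyNormalized (im ψ R) ∧
      ∀ n, ∃ s ∈ F.S, ∀ y ∈ R, ψ (af (j n) y) = s * ψ y * s⁻¹ := by
  obtain ⟨f, hf, hfn⟩ := exists_fullyNormalized hR
  obtain ⟨e, he, hef⟩ := hf.exists_equiv rfl
  have hsyl := (hsat.sylow _ hfn).2
  let j' : N →* F.Aut (im f R) :=
    ((autCongr e he).toMonoidHom).comp (j.codRestrict (F.Aut R) hj)
  obtain ⟨a, ha⟩ := exists_conj_le hN j' ((F.AutS (im f R)).subgroupOf (F.Aut (im f R))) hsyl
  have hR1 : im f R ≤ F.S := hf.im_le le_rfl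
  have ha1 : F.Mor (im f R) (af (a⁻¹ : F.Aut (im f R)).1) :=
    (mem_aut_iff' hR1).1 (a⁻¹).2
  have hψ : F.Mor R (af (a⁻¹ : F.Aut (im f R)).1 ∘ f) :=
    hf.comp ha1 fun y hy => mem_im_of_mem f hy
  have him : im (af (a⁻¹ : F.Aut (im f R)).1 ∘ f) R = im f R := by
    rw [im_comp hf.mulOn R le_rfl, im_af]
  refine ⟨_, hψ, by rwa [him], fun n => ?_⟩
  obtain ⟨s, hs, h1⟩ := ha n
  refine ⟨s, hs, fun y hy => ?_⟩
  have h2 := h1 (a.1⁻¹ (e ⟨y, hy⟩))
  have h3 : ((a⁻¹ * j' n * a : F.Aut (im f R)).1 (a.1⁻¹ (e ⟨y, hy⟩)) : im f R) =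
      a.1⁻¹ (e (j n ⟨y, hy⟩)) := by
    show a.1⁻¹ ((MulAut.congr e (j n)) (a.1 (a.1⁻¹ (e ⟨y, hy⟩)))) = _
    rw [MulAut.apply_inv_self]
    show a.1⁻¹ (e ((j n) (e.symm (e ⟨y, hy⟩)))) = _
    rw [e.symm_apply_apply]
  show af (a.1⁻¹) (f (af (j n) y)) = s * (af (a.1⁻¹) (f y)) * s⁻¹
  have h4 : f y = e ⟨y, hy⟩ := (hef ⟨y, hy⟩).symm
  have h5 : f (af (j n) y) = e (j n ⟨y, hy⟩) := by
    rw [hef, af_apply' _ hy]
  rw [h4, h5, af_apply, af_apply, ← h3]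
  exact h2

end FusionSystem

end Pool.Agent.W452.FS
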