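import Pool.Agent.W452.FS.Ext

/-!
# Maximal data
-/

namespace Pool.Agent.W452.FS

universe u v

variable {G : Type u} [Group G]

namespace FusionSystem

variable (F : FusionSystem G)

/-- The data `(𝒬, X)` has a stabilizer in `S` of maximal order among its `F`-conjugates. -/
def Maximal (𝒬 : Set (Subgroup G)) (X : Set G) : Prop :=
  span 𝒬 X ≤ F.S ∧ ∀ g, F.Mor (span 𝒬 X) g →
    Nat.card (F.stab (im g '' 𝒬) (g '' X)) ≤ Nat.card (F.stab 𝒬 X)

variable {F}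

theorem card_stab_eq [Finite G] {𝒬 : Set (Subgroup G)} {X : Set G} {R : Subgroup G}
    (hR : span 𝒬 X = R) :
    Nat.card (F.stab 𝒬 X) = Nat.card (F.conjOn 𝒬 X).range *
      Nat.card ↥(F.S ⊓ Subgroup.centralizer (R : Set G)) := by
  subst hR
  have h1 : Nat.card (F.stab 𝒬 X) = Nat.card (F.conjOn 𝒬 X).range *
      Nat.card (F.conjOn 𝒬 X).ker := by
    rw [← Subgroup.card_mul_index (F.conjOn 𝒬 X).ker, Subgroup.index_ker, mul_comm]
  rw [h1]
  congr 1
  refine Nat.card_congr (Equiv.ofBijective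
    (fun s => ⟨s.1.1, Subgroup.mem_inf.2 ⟨?_, ?_⟩⟩) ⟨?_, ?_⟩)
  · exact stab_le _ _ s.1.2
  · have h2 := s.2
    rw [MonoidHom.mem_ker] at h2
    rw [Subgroup.mem_centralizer_iff]
    intro y hy
    have h3 := congrArg (fun χ => ((χ ⟨y, hy⟩ : span 𝒬 X) : G)) h2
    have h4 : (s.1 : G) * y * (s.1 : G)⁻¹ = y := h3
    rw [mul_inv_eq_iff_eq_mul] at h4
    exact h4.symm
  · rintro s t h
    have h' : (s.1 : G) = t.1 := by
      have := congrArg (fun z : ↥(F.S ⊓ Subgroup.centralizer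
        ((span 𝒬 X : Subgroup G) : Set G)) => (z : G)) h
      exact this
    exact Subtype.ext (Subtype.ext h')
  · rintro ⟨s, hs12⟩
    obtain ⟨hs1, hs2⟩ := Subgroup.mem_inf.1 hs12
    rw [Subgroup.mem_centralizer_iff] at hs2
    have h5 : ∀ y ∈ span 𝒬 X, cj s y = y := by
      intro y hy
      rw [cj, mul_inv_eq_iff_eq_mul]
      exact (hs2 y hy).symm
    have h6 : s ∈ F.stab 𝒬 X := by
      rw [mem_stab]
      refine ⟨hs1, FixesFun.congr (f := id) ⟨fun Q _ => im_id Q, fun _ _ => rfl⟩ ?_⟩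
      intro y hy
      exact (h5 y hy).symm
    refine ⟨⟨⟨s, h6⟩, ?_⟩, rfl⟩
    rw [MonoidHom.mem_ker]
    ext y
    exact h5 y y.2

variable [Finite G] {p : ℕ} [Fact p.Prime]

theorem Maximal.sylow (hsat : F.IsSaturated p) (hp : IsPGroup p F.S) {𝒬 : Set (Subgroup G)}
    {X : Set G} (hmax : F.Maximal 𝒬 X) : F.FullyCentralized (span 𝒬 X) ∧
      ¬ p ∣ (F.AutS (span 𝒬 X)).relIndex (F.autFix (span 𝒬 X) 𝒬 X le_rfl) := by
  obtain ⟨hS, hmax⟩ := hmax
  set R := span 𝒬 X with hR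
  set K := F.autFix R 𝒬 X le_rfl with hK
  have hKS : IsPGroup p ((F.AutS R).subgroupOf K) := by
    intro χ
    obtain ⟨s, hs, hχ⟩ := χ.2
    obtain ⟨n, hn⟩ := hp ⟨s, hs⟩
    refine ⟨n, ?_⟩
    have hn' : s ^ p ^ n = 1 := congrArg Subtype.val hn
    apply Subtype.ext; apply Subtype.ext
    ext y
    have h1 : ∀ m : ℕ, ((((χ.1 : K).1 ^ m) y : R) : G) = s ^ m * y * (s ^ m)⁻¹ := by
      intro m
      induction m with
      | zero => simp
      | succ m ih =>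
        rw [pow_succ', MulAut.mul_apply]
        have h2 : (((χ.1 : K).1 ((((χ.1 : K).1 ^ m) y))) : G) =
          s * ((((χ.1 : K).1 ^ m) y : R) : G) * s⁻¹ := hχ _
        rw [h2, ih, pow_succ' s]
        group
    have h3 := h1 (p ^ n)
    rw [hn'] at h3
    simpa using h3
  obtain ⟨E, hE⟩ := hKS.exists_le_sylow
  let j : E →* MulAut R := K.subtype.comp E.toSubgroup.subtype
  obtain ⟨ψ, hψ, hψn, hj⟩ := exists_mor_conj hsat hS E.isPGroup' j (fun n => (n.1 : K).2.1)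
  have him : im ψ R = span (im ψ '' 𝒬) (ψ '' X) := im_span hψ.mulOn le_rfl
  have hψc := (hsat.sylow _ hψn).1
  have h1 := hmax ψ hψ
  rw [card_stab_eq him.symm, card_stab_eq hR.symm] at h1
  -- the range of conjugation on `R`
  have h2 : Nat.card (F.conjOn 𝒬 X).range = Nat.card ((F.AutS R).subgroupOf K) := by
    refine Nat.card_congr (Equiv.ofBijective (fun χ => ⟨⟨χ.1, ?_⟩, ?_⟩) ⟨?_, ?_⟩)
    · obtain ⟨s, hs⟩ := χ.2
      rw [← hs]
      exact conjOn_mem_autFix hS s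
    · obtain ⟨s, hs⟩ := χ.2
      refine ⟨s, stab_le _ _ s.2, fun y => ?_⟩
      show ((χ.1 y : R) : G) = _
      rw [← hs]
      rfl
    · intro χ χ' h
      exact Subtype.ext (congrArg (fun z => z.1.1) h)
    · rintro ⟨⟨χ, hχ⟩, s, hs, h⟩
      refine ⟨⟨χ, ⟨⟨s, ?_⟩, ?_⟩⟩, rfl⟩
      · rw [mem_stab]
        refine ⟨hs, hχ.2.congr fun y hy => ?_⟩
        rw [af_apply' _ hy]
        exact h ⟨y, hy⟩
      · ext y
        exact (h y).symm
  have h3 : Nat.card ((F.AutS R).subgroupOf K) ≤ Nat.card E :=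
    Nat.card_le_card_of_injective _ (Subgroup.inclusion_injective hE)
  have h4 := card_centralizer_le_of_fullyCentralized hψ hψc
  -- the Sylow subgroup embeds
  have h5 : Nat.card E ≤ Nat.card (F.conjOn (im ψ '' 𝒬) (ψ '' X)).range := by
    choose s hs hs' using hj
    have hst : ∀ n, s n ∈ F.stab (im ψ '' 𝒬) (ψ '' X) := by
      intro n
      rw [mem_stab]
      refine ⟨hs n, ?_, ?_⟩
      · rintro _ ⟨Q, hQ, rfl⟩
        have hQR : Q ≤ R := le_span X hQ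
        rw [← im_comp hψ.mulOn Q hQR]
        have h6 : im (cj (s n) ∘ ψ) Q = im (ψ ∘ af (j n)) Q :=
          im_congr fun y hy => (hs' n y (hQR hy)).symm
        rw [h6, im_comp (mulOn_af _) Q hQR]
        congr 1
        exact (n.1 : K).2.2.1 Q hQ
      · rintro _ ⟨y, hy, rfl⟩
        have h6 : ψ (af (j n) y) = s n * ψ y * (s n)⁻¹ := hs' n y (mem_span 𝒬 hy)
        have h7 : af (j n) y = y := (n.1 : K).2.2.2 y hy
        rw [h7] at h6
        exact h6.symm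
    refine Nat.card_le_card_of_injective
      (fun n => (⟨F.conjOn _ _ ⟨s n, hst n⟩, ⟨_, rfl⟩⟩ :
        (F.conjOn (im ψ '' 𝒬) (ψ '' X)).range)) ?_
    intro n n' h
    have h6 : ∀ y ∈ R, s n * ψ y * (s n)⁻¹ = s n' * ψ y * (s n')⁻¹ := by
      intro y hy
      have h7 : ψ y ∈ span (im ψ '' 𝒬) (ψ '' X) := by
        rw [← him]; exact mem_im_of_mem ψ hy
      exact congrArg (fun z => ((z.1 ⟨ψ y, h7⟩ : span (im ψ '' 𝒬) (ψ '' X)) : G)) h
    apply Subtype.ext; apply Subtype.ext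
    ext y
    have h8 := h6 y y.2
    rw [← hs' n y y.2, ← hs' n' y y.2] at h8
    have h9 := hψ.inj (af_mem _ y.2) (af_mem _ y.2) h8
    rw [af_apply, af_apply] at h9
    exact h9
  rw [h2] at h1
  have hpos : 0 < Nat.card ↥(F.S ⊓ Subgroup.centralizer ((im ψ R : Subgroup G) : Set G)) :=
    Nat.card_pos
  have hposE : 0 < Nat.card E := Nat.card_pos
  set c1 := Nat.card ↥(F.S ⊓ Subgroup.centralizer ((im ψ R : Subgroup G) : Set G)) with hc1
  set c := Nat.card ↥(F.S ⊓ Subgroup.centralizer (R : Set G)) with hc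
  set a := Nat.card ((F.AutS R).subgroupOf K) with ha
  set b := Nat.card E with hb
  set d := Nat.card (F.conjOn (im ψ '' 𝒬) (ψ '' X)).range with hd
  have h6 : b * c1 ≤ a * c := (Nat.mul_le_mul_right c1 h5).trans h1
  have h7 : b ≤ a := by
    have : b * c1 ≤ a * c1 := h6.trans (Nat.mul_le_mul_left a h4)
    exact Nat.le_of_mul_le_mul_right this hpos
  have h8 : c1 ≤ c := by
    have : b * c1 ≤ b * c := h6.trans (Nat.mul_le_mul_right c h3)
    exact Nat.le_of_mul_le_mul_left this hposE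
  refine ⟨fullyCentralized_of_card hψ hψc h8, ?_⟩
  have h9 : (F.AutS R).subgroupOf K = E.toSubgroup :=
    Subgroup.eq_of_le_of_card_ge hE h7
  rw [Subgroup.relIndex, h9]
  exact E.not_dvd_index

theorem Maximal.extend (hsat : F.IsSaturated p) (hp : IsPGroup p F.S)
    {𝒬 𝒬' : Set (Subgroup G)} {X X' : Set G} (hmax : F.Maximal 𝒬' X') {h : G → G}
    (hh : F.Mor (span 𝒬 X) h) (h𝒬 : im h '' 𝒬 = 𝒬') (hX : h '' X = X') :
    ∃ ρ, F.Mor (span 𝒬 X ⊔ F.stab 𝒬 X) ρ ∧ (∀ Q ∈ 𝒬, im ρ Q = im h Q) ∧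
      ∀ x ∈ X, ρ x = h x := by
  obtain ⟨hc, hs⟩ := hmax.sylow hsat hp
  have hmax1 := hmax.1
  have him : im h (span 𝒬 X) = span 𝒬' X' := by rw [im_span hh.mulOn le_rfl, h𝒬, hX]
  set R := span 𝒬 X with hR
  set R' := span 𝒬' X' with hR'
  obtain ⟨e, he, hef⟩ := hh.exists_equiv him
  set K := F.autFix R' 𝒬' X' le_rfl with hK
  have hRS : R ≤ F.S := hh.le
  have hjK : ∀ s : F.stab 𝒬 X, MulAut.congr e (F.conjOn 𝒬 X s) ∈ K := by
    intro s
    have h1 := conjOn_mem_autFix hRS s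
    refine ⟨he.congr_mem h1.1, ?_, ?_⟩
    · intro Q' hQ'
      rw [← h𝒬] at hQ'
      obtain ⟨Q, hQ, rfl⟩ := hQ'
      have hQR : Q ≤ R := le_span X hQ
      rw [← im_comp hh.mulOn Q hQR]
      have h2 : im (af (MulAut.congr e (F.conjOn 𝒬 X s)) ∘ h) Q =
          im (h ∘ af (F.conjOn 𝒬 X s)) Q := by
        refine im_congr fun y hy => ?_
        show af _ (h y) = h (af _ y)
        rw [af_apply' _ (hQR hy), ← hef, ← hef ⟨y, hQR hy⟩, af_apply]
        show ((e ((F.conjOn 𝒬 X s) (e.symm (e ⟨y, hQR hy⟩))) : R') : G) = _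
        rw [e.symm_apply_apply]
      rw [h2, im_comp (mulOn_af _) Q hQR, h1.2.1 Q hQ]
    · intro x hx
      rw [← hX] at hx
      obtain ⟨x, hx, rfl⟩ := hx
      have hxR : x ∈ R := mem_span 𝒬 hx
      have h2 : af (MulAut.congr e (F.conjOn 𝒬 X s)) (h x) = h (af (F.conjOn 𝒬 X s) x) := by
        rw [af_apply' _ hxR, ← hef, ← hef ⟨x, hxR⟩, af_apply]
        show ((e ((F.conjOn 𝒬 X s) (e.symm (e ⟨x, hxR⟩))) : R') : G) = _
        rw [e.symm_apply_apply]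
      rw [h2, h1.2.2 x hx]
  let j : F.stab 𝒬 X →* K :=
    (((MulAut.congr e).toMonoidHom).comp (F.conjOn 𝒬 X)).codRestrict K hjK
  have hN : IsPGroup p (F.stab 𝒬 X) := hp.to_le (stab_le _ _)
  obtain ⟨a, ha⟩ := exists_conj_le hN j ((F.AutS R').subgroupOf K) hs
  have ha1 := (a⁻¹).2
  have ha2 : F.Mor R' (af (a⁻¹ : K).1) := (mem_aut_iff' hmax1).1 ha1.1
  have hf : F.Mor R (af (a⁻¹ : K).1 ∘ h) := hh.comp ha2 fun y hy => by
    rw [← him]; exact mem_im_of_mem h hy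
  set f := af (a⁻¹ : K).1 ∘ h with hfdef
  have himf : im f R = R' := by rw [hfdef, im_comp hh.mulOn R le_rfl, him, im_af]
  obtain ⟨φ, hφ, hφf⟩ := hf
  have hr : φ.range = R' := by rw [Mor.range_eq hφf, himf]
  obtain ⟨ψ, hψ, hext⟩ := hsat.extend R φ hφ (by rw [hr]; exact hc)
  have hle : R ⊔ F.stab 𝒬 X ≤ F.extensor φ := by
    refine sup_le ?_ ?_
    · intro y hy
      refine ⟨hRS hy, ?_, φ ⟨y, hy⟩, F.range_le hφ ⟨_, rfl⟩, fun z z' hz => ?_⟩
      · exact Subgroup.le_normalizer hy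
      · have : z' = ⟨y, hy⟩ * z * ⟨y, hy⟩⁻¹ := Subtype.ext hz
        rw [this, map_mul, map_mul, map_inv]
    · intro s hs'
      obtain ⟨t, ht, h1⟩ := ha ⟨s, hs'⟩
      refine ⟨stab_le _ _ hs', mem_stab' hs', t, ht, fun z z' hz => ?_⟩
      have h2 := h1 (a.1⁻¹ (e z))
      have h3 : ((a⁻¹ * j ⟨s, hs'⟩ * a : K).1 (a.1⁻¹ (e z)) : R') = a.1⁻¹ (e z') := by
        show a.1⁻¹ ((MulAut.congr e (F.conjOn 𝒬 X ⟨s, hs'⟩)) (a.1 (a.1⁻¹ (e z)))) = _
        rw [MulAut.apply_inv_self]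
        show a.1⁻¹ (e ((F.conjOn 𝒬 X ⟨s, hs'⟩) (e.symm (e z)))) = _
        rw [e.symm_apply_apply]
        congr 2
        exact Subtype.ext hz.symm
      have h4 : ∀ z : R, φ z = (a.1⁻¹ (e z) : R') := by
        intro z
        rw [hφf, hfdef]
        show af _ (h z) = _
        rw [← hef, af_apply]
        rfl
      rw [h4, h4, ← h3]
      exact h2
  refine ⟨toFun ψ, (mor_of_mem hψ).mono hle, ?_⟩
  have hagree : ∀ y ∈ R, toFun ψ y = f y := by
    intro y hy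
    have hy' : y ∈ F.extensor φ := hle ((le_sup_left : R ≤ R ⊔ F.stab 𝒬 X) hy)
    rw [toFun_apply' ψ hy', hext ⟨y, hy⟩ ⟨y, hy'⟩ rfl, hφf]
  constructor
  · intro Q hQ
    have hQR : Q ≤ R := le_span X hQ
    rw [im_congr fun y hy => hagree y (hQR hy), hfdef, im_comp hh.mulOn Q hQR]
    refine ha1.2.1 (im h Q) ?_
    rw [← h𝒬]; exact ⟨Q, hQ, rfl⟩
  · intro x hx
    rw [hagree x (mem_span 𝒬 hx)]
    refine ha1.2.2 (h x) ?_
    rw [← hX]; exact ⟨x, hx, rfl⟩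

end FusionSystem

end Pool.Agent.W452.FS
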