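import Pool.Agent.W452.FS.Toggle

/-!
# The kernel of restriction to a centric subgroup
-/

namespace Pool.Agent.W452.FS

universe u v

/-- An automorphism of a finite `p`-group `H`, of order prime to `p`, which is trivial on a
subgroup `P` containing its centralizer, is trivial. -/
theorem thompson {H : Type*} [Group H] [Finite H] {p : ℕ} [Fact p.Prime] (hp : IsPGroup p H)
    (P : Subgroup H) (hP : ∀ c : H, (∀ y ∈ P, c * y = y * c) → c ∈ P) (χ : MulAut H)
    (hχ : ∀ y ∈ P, χ y = y) {m : ℕ} (hm : ¬ p ∣ m) (hχm : χ ^ m = 1) : χ = 1 := by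
  let Fx : Subgroup H :=
    { carrier := {y | χ y = y}
      one_mem' := map_one χ
      mul_mem' := fun {a b} ha hb => by
        show χ (a * b) = a * b
        rw [map_mul, ha, hb]
      inv_mem' := fun {a} ha => by
        show χ a⁻¹ = a⁻¹
        rw [map_inv, ha] }
  have hFx : ∀ y, y ∈ Fx ↔ χ y = y := fun y => Iff.rfl
  by_contra hne
  have htop : Fx < ⊤ := by
    refine lt_top_iff_ne_top.2 fun h => hne ?_
    ext y
    have : y ∈ Fx := by rw [h]; exact Subgroup.mem_top _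
    exact this
  have hnil := hp.isNilpotent
  have hlt := Group.normalizerCondition_of_isNilpotent Fx htop
  obtain ⟨g, hg, hgF⟩ := SetLike.exists_of_lt hlt
  set z := g⁻¹ * χ g with hz
  have hzP : z ∈ P := by
    refine hP z fun y hy => ?_
    have hyF : y ∈ Fx := hχ y hy
    have h1 : g * y * g⁻¹ ∈ Fx := (hg y).1 hyF
    rw [hFx, map_mul, map_mul, map_inv, hχ y hy] at h1
    rw [hz]
    have h2 : χ g * y = g * y * g⁻¹ * χ g := by
      rw [← h1]; group
    rw [mul_assoc, h2]; group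
  have hz1 : χ z = z := hχ z hzP
  have hχg : χ g = g * z := by rw [hz]; group
  have hpow : ∀ n : ℕ, (χ ^ n) g = g * z ^ n := by
    intro n
    induction n with
    | zero => simp
    | succ n ih =>
      rw [pow_succ', MulAut.mul_apply, ih, map_mul, map_pow, hz1, hχg, mul_assoc, ← pow_succ']
  have h3 := hpow m
  rw [hχm] at h3
  have h4 : z ^ m = 1 := by
    have : g * z ^ m = g * 1 := by rw [← h3]; simp
    exact mul_left_cancel this
  obtain ⟨n, hn⟩ := hp z
  have h5 : orderOf z ∣ p ^ n := orderOf_dvd_of_pow_eq_one hn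
  have h6 : orderOf z ∣ m := orderOf_dvd_of_pow_eq_one h4
  have hcop : Nat.Coprime (p ^ n) m :=
    Nat.Coprime.pow_left n ((Nat.Prime.coprime_iff_not_dvd Fact.out).2 hm)
  have h7 : orderOf z = 1 := Nat.dvd_one.1 (hcop ▸ Nat.dvd_gcd h5 h6)
  have h8 : z = 1 := orderOf_eq_one_iff.1 h7
  apply hgF
  rw [hFx, hχg, h8, mul_one]

variable {G : Type u} [Group G]

namespace FusionSystem

variable {F : FusionSystem G}

/-- The data `(σ, x, P)` appearing in the expansion of the alternating sum. -/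
structure IsTriple (F : FusionSystem G) (σ : Set (Subgroup G)) (x : G) (P : Subgroup G) :
    Prop where
  good : Good F.S σ P
  x_mem : x ∈ P
  x_comm : ∀ y ∈ P, y * x = x * y
  centric : ∀ g, F.Mor (sSup σ ⊔ P) g → ∀ c ∈ F.S,
    (∀ Q ∈ σ, im (FS.cj c) (im g Q) = im g Q) → (∀ y ∈ P, c * g y = g y * c) → c ∈ im g P

theorem span_coe (σ : Set (Subgroup G)) (P : Subgroup G) :
    span σ (P : Set G) = sSup σ ⊔ P := by
  rw [span, Subgroup.closure_eq]

variable [Finite G] {p : ℕ} [Fact p.Prime]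

theorem IsTriple.ker (hsat : F.IsSaturated p) (hp : IsPGroup p F.S) {σ : Set (Subgroup G)}
    {x : G} {P R : Subgroup G} (h : F.IsTriple σ x P) (hR : sSup σ ⊔ P = R) {χ : MulAut R}
    (hχ : χ ∈ F.Aut R) (hσ : ∀ Q ∈ σ, im (af χ) Q = Q) (hP : ∀ y ∈ P, af χ y = y) :
    ∃ z ∈ P, ∀ y ∈ R, af χ y = z * y * z⁻¹ := by
  have hspan : span σ (P : Set G) ≤ R := by rw [span_coe, hR]
  have hPR : P ≤ R := by rw [← hR]; exact le_sup_right
  have hσR : sSup σ ≤ R := by rw [← hR]; exact le_sup_left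
  have hRS : R ≤ F.S := by rw [← hR]; exact sup_le h.good.sSup_le h.good.P_le
  set K := F.autFix R σ (P : Set G) hspan with hK
  have hRn : ∀ Q ∈ σ, R ≤ Subgroup.normalizer (Q : Set G) := by
    intro Q hQ
    rw [← hR]
    exact sup_le (h.good.normal Q hQ) (h.good.P_normal Q hQ)
  have hKp : IsPGroup p K := by
    intro χ
    have hRp : IsPGroup p R := hp.to_le hRS
    have hpos : 0 < orderOf χ := orderOf_pos χ
    obtain ⟨a, m, hm, ham⟩ := Nat.exists_eq_pow_mul_and_not_dvd hpos.ne' p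
      (Nat.Prime.one_lt Fact.out).ne'
    refine ⟨a, ?_⟩
    have h1 : (χ ^ p ^ a) ^ m = 1 := by
      rw [← pow_mul, ← ham]
      exact pow_orderOf_eq_one χ
    have h2 := thompson hRp (P.subgroupOf R) ?_ (χ ^ p ^ a).1 ?_ hm ?_
    · exact Subtype.ext h2
    · intro c hc
      rw [Subgroup.mem_subgroupOf]
      have h3 := h.centric id (Mor.id' (by rw [hR]; exact hRS)) c (hRS c.2) ?_ ?_
      · rwa [im_id] at h3
      · intro Q hQ
        rw [im_id]
        exact mem_normalizer_iff_im.1 (hRn Q hQ c.2)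
      · intro y hy
        exact congrArg Subtype.val (hc ⟨y, hPR hy⟩ (by rw [Subgroup.mem_subgroupOf]; exact hy))
    · intro y hy
      rw [Subgroup.mem_subgroupOf] at hy
      have h4 := (χ ^ p ^ a).2.2.2 y hy
      rw [af_apply] at h4
      exact Subtype.ext h4
    · have := congrArg Subtype.val h1
      simpa using this
  obtain ⟨ψ, hψ, -, hj⟩ := exists_mor_conj hsat hRS hKp K.subtype (fun n => n.2.1)
  have hχK : χ ∈ K := ⟨hχ, hσ, hP⟩
  obtain ⟨s, hs, hs'⟩ := hj ⟨χ, hχK⟩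
  have hs'' : ∀ y ∈ R, ψ (af χ y) = s * ψ y * s⁻¹ := hs'
  have h5 : s ∈ im ψ P := by
    refine h.centric ψ (by rw [hR]; exact hψ) s hs ?_ ?_
    · intro Q hQ
      have hQR : Q ≤ R := (le_sSup hQ).trans hσR
      rw [← im_comp hψ.mulOn Q hQR]
      have h6 : im (FS.cj s ∘ ψ) Q = im (ψ ∘ af χ) Q :=
        im_congr fun y hy => (hs'' y (hQR hy)).symm
      rw [h6, im_comp (mulOn_af _) Q hQR, hσ Q hQ]
    · intro y hy
      have h6 := hs'' y (hPR hy)
      rw [hP y hy] at h6
      nth_rewrite 2 [h6]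
      group
  rw [mem_im (hψ.mulOn.mono hPR)] at h5
  obtain ⟨z, hz, rfl⟩ := h5
  refine ⟨z, hz, fun y hy => ?_⟩
  have h7 := hs'' y hy
  have hzR := hPR hz
  rw [← hψ.mulOn.inv hzR, ← hψ.mulOn _ hzR _ hy, ← hψ.mulOn _ (R.mul_mem hzR hy) _
    (R.inv_mem hzR)] at h7
  exact hψ.inj (af_mem _ hy) (R.mul_mem (R.mul_mem hzR hy) (R.inv_mem hzR)) h7

end FusionSystem

end Pool.Agent.W452.FS
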