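import Pool.Agent.W452.FS.D2

/-!
# Morphisms as functions
-/

namespace Pool.Agent.W452.FS

universe u v

variable {G : Type u} [Group G]

/-- `f : G → G` is multiplicative on the subgroup `P`. -/
def MulOn (P : Subgroup G) (f : G → G) : Prop := ∀ y ∈ P, ∀ z ∈ P, f (y * z) = f y * f z

/-- The subgroup generated by the image of `P` under `f`; equal to the image if `f` is
multiplicative on `P`. -/
def im (f : G → G) (P : Subgroup G) : Subgroup G := Subgroup.closure (f '' P)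

theorem MulOn.mono {P Q : Subgroup G} {f : G → G} (h : MulOn P f) (hQ : Q ≤ P) : MulOn Q f :=
  fun y hy z hz => h y (hQ hy) z (hQ hz)

theorem MulOn.one {P : Subgroup G} {f : G → G} (h : MulOn P f) : f 1 = 1 := by
  have := h 1 P.one_mem 1 P.one_mem
  simpa using this

theorem MulOn.inv {P : Subgroup G} {f : G → G} (h : MulOn P f) {y : G} (hy : y ∈ P) :
    f y⁻¹ = (f y)⁻¹ := by
  have := h y hy y⁻¹ (P.inv_mem hy)
  rw [mul_inv_cancel, h.one] at this
  exact (inv_eq_of_mul_eq_one_right this.symm).symm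

theorem coe_im {P : Subgroup G} {f : G → G} (h : MulOn P f) :
    (im f P : Set G) = f '' P := by
  let φ : P →* G := ⟨⟨fun y => f y, h.one⟩, fun y z => h y y.2 z z.2⟩
  have : f '' P = (φ.range : Set G) := by
    ext y
    simp only [Set.mem_image, SetLike.mem_coe, MonoidHom.mem_range]
    constructor
    · rintro ⟨z, hz, rfl⟩
      exact ⟨⟨z, hz⟩, rfl⟩
    · rintro ⟨z, rfl⟩
      exact ⟨z, z.2, rfl⟩
  rw [im, this, Subgroup.closure_eq]

theorem mem_im {P : Subgroup G} {f : G → G} (h : MulOn P f) {y : G} :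
    y ∈ im f P ↔ ∃ z ∈ P, f z = y := by
  rw [← SetLike.mem_coe, coe_im h]; rfl

theorem mem_im_of_mem {P : Subgroup G} (f : G → G) {y : G} (hy : y ∈ P) : f y ∈ im f P :=
  Subgroup.subset_closure ⟨y, hy, rfl⟩

theorem im_congr {P : Subgroup G} {f g : G → G} (h : ∀ y ∈ P, f y = g y) : im f P = im g P := by
  unfold im
  congr 1
  exact Set.image_congr h

theorem im_id (P : Subgroup G) : im id P = P := by
  simp [im]

theorem im_mono (f : G → G) {P Q : Subgroup G} (h : P ≤ Q) : im f P ≤ im f Q :=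
  Subgroup.closure_mono (Set.image_mono h)

theorem im_closure {R : Subgroup G} {f : G → G} (h : MulOn R f) {X : Set G} (hX : X ⊆ R) :
    im f (Subgroup.closure X) = Subgroup.closure (f '' X) := by
  have hXR : Subgroup.closure X ≤ R := (Subgroup.closure_le R).2 hX
  apply le_antisymm
  · rw [im, Subgroup.closure_le]
    rintro _ ⟨y, hy, rfl⟩
    have : y ∈ R ∧ f y ∈ Subgroup.closure (f '' X) := by
      induction hy using Subgroup.closure_induction with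
      | mem y hy => exact ⟨hX hy, Subgroup.subset_closure ⟨y, hy, rfl⟩⟩
      | one => exact ⟨R.one_mem, by rw [h.one]; exact Subgroup.one_mem _⟩
      | mul y z _ _ hy hz =>
        exact ⟨R.mul_mem hy.1 hz.1, by rw [h y hy.1 z hz.1]; exact Subgroup.mul_mem _ hy.2 hz.2⟩
      | inv y _ hy => exact ⟨R.inv_mem hy.1, by rw [h.inv hy.1]; exact Subgroup.inv_mem _ hy.2⟩
    exact this.2
  · exact Subgroup.closure_mono (Set.image_mono Subgroup.subset_closure)

theorem im_comp {R : Subgroup G} {f g : G → G} (hf : MulOn R f) (P : Subgroup G)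
    (hP : P ≤ R) : im (g ∘ f) P = im g (im f P) := by
  have : (im f P : Set G) = f '' P := coe_im (hf.mono hP)
  rw [im, im, this, Set.image_image]
  rfl

namespace FusionSystem

variable (F : FusionSystem G)

theorem ext' {F F' : FusionSystem G} (hS : F.S = F'.S) (hH : F.Hom = F'.Hom) : F = F' := by
  cases F; cases F'; cases hS; cases hH; rfl

/-- The map `f : G → G` restricts to a morphism `P → S` of the fusion system. -/
def Mor (P : Subgroup G) (f : G → G) : Prop := ∃ φ ∈ F.Hom P, ∀ y : P, φ y = f y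

variable {F}

/-- A homomorphism `P → G` as a map `G → G` (with junk values outside `P`). -/
noncomputable def toFun {P : Subgroup G} (φ : P →* G) : G → G :=
  open Classical in fun y => if h : y ∈ P then φ ⟨y, h⟩ else 1

theorem toFun_apply {P : Subgroup G} (φ : P →* G) (y : P) : toFun φ y = φ y := by
  simp [toFun]

theorem toFun_apply' {P : Subgroup G} (φ : P →* G) {y : G} (hy : y ∈ P) :
    toFun φ y = φ ⟨y, hy⟩ := by
  simp [toFun, hy]

theorem mor_toFun_iff {P : Subgroup G} (φ : P →* G) : F.Mor P (toFun φ) ↔ φ ∈ F.Hom P := by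
  constructor
  · rintro ⟨ψ, hψ, h⟩
    have : φ = ψ := by
      ext y
      rw [h, toFun_apply]
    rwa [this]
  · intro h
    exact ⟨φ, h, fun y => (toFun_apply φ y).symm⟩

theorem mor_of_mem {P : Subgroup G} {φ : P →* G} (h : φ ∈ F.Hom P) : F.Mor P (toFun φ) :=
  (mor_toFun_iff φ).2 h

namespace Mor

variable {P Q R : Subgroup G} {f g : G → G}

theorem mem_hom (h : F.Mor P f) (φ : P →* G) (hφ : ∀ y : P, φ y = f y) : φ ∈ F.Hom P := by
  obtain ⟨ψ, hψ, hf⟩ := h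
  have : φ = ψ := by
    ext y
    rw [hφ, hf]
  rwa [this]

theorem le (h : F.Mor P f) : P ≤ F.S := by
  obtain ⟨φ, hφ, _⟩ := h
  exact F.source_le hφ

theorem mulOn (h : F.Mor P f) : MulOn P f := by
  obtain ⟨φ, hφ, hf⟩ := h
  intro y hy z hz
  rw [← hf ⟨y, hy⟩, ← hf ⟨z, hz⟩, ← map_mul, hf]
  rfl

theorem map_mem (h : F.Mor P f) {y : G} (hy : y ∈ P) : f y ∈ F.S := by
  obtain ⟨φ, hφ, hf⟩ := h
  rw [← hf ⟨y, hy⟩]
  exact F.range_le hφ ⟨_, rfl⟩

theorem inj (h : F.Mor P f) {y z : G} (hy : y ∈ P) (hz : z ∈ P) (e : f y = f z) : y = z := by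
  obtain ⟨φ, hφ, hf⟩ := h
  rw [← hf ⟨y, hy⟩, ← hf ⟨z, hz⟩] at e
  exact congrArg Subtype.val (F.injective hφ e)

theorem congr (h : F.Mor P f) (e : ∀ y ∈ P, f y = g y) : F.Mor P g := by
  obtain ⟨φ, hφ, hf⟩ := h
  exact ⟨φ, hφ, fun y => (hf y).trans (e y y.2)⟩

theorem comp (h : F.Mor P f) (h' : F.Mor Q g) (hPQ : ∀ y ∈ P, f y ∈ Q) : F.Mor P (g ∘ f) := by
  obtain ⟨φ, hφ, hf⟩ := h
  obtain ⟨ψ, hψ, hg⟩ := h'
  have h1 : ∀ y, φ y ∈ Q := fun y => by rw [hf]; exact hPQ y y.2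
  refine ⟨_, F.comp_mem hφ hψ h1, fun y => ?_⟩
  show ψ ⟨φ y, h1 y⟩ = g (f y)
  rw [hg, ← hf]

theorem conj {s : G} (hs : s ∈ F.S) (hP : P ≤ F.S) : F.Mor P (fun y => s * y * s⁻¹) :=
  ⟨_, F.conj_mem hs hP, fun _ => rfl⟩

theorem id' (hP : P ≤ F.S) : F.Mor P id :=
  (conj F.S.one_mem hP).congr (fun y _ => by simp)

theorem mono (h : F.Mor P f) (hQ : Q ≤ P) : F.Mor Q f :=
  (id' (hQ.trans h.le)).comp h (fun _ hy => hQ hy)

theorem range_eq {φ : P →* G} (hf : ∀ y : P, φ y = f y) : φ.range = im f P := by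
  have hm : MulOn P f := fun y hy z hz => by
    rw [← hf ⟨y, hy⟩, ← hf ⟨z, hz⟩, ← map_mul, hf]; rfl
  ext y
  rw [mem_im hm]
  constructor
  · rintro ⟨z, rfl⟩
    exact ⟨z, z.2, (hf z).symm⟩
  · rintro ⟨z, hz, rfl⟩
    exact ⟨⟨z, hz⟩, hf _⟩

theorem exists_inv (h : F.Mor P f) : ∃ g : G → G, F.Mor (im f P) g ∧ (∀ y ∈ P, g (f y) = y) ∧
    ∀ y ∈ im f P, g y ∈ P ∧ f (g y) = y := by
  obtain ⟨φ, hφ, hf⟩ := h
  have hr : φ.range = im f P := range_eq hf
  let ψ : φ.range →* G :=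
    P.subtype.comp (MonoidHom.ofInjective (F.injective hφ)).symm.toMonoidHom
  have h1 : ∀ y : P, ψ ⟨φ y, ⟨y, rfl⟩⟩ = y := by
    intro y
    have : (MonoidHom.ofInjective (F.injective hφ)) y = ⟨φ y, ⟨y, rfl⟩⟩ := rfl
    show (((MonoidHom.ofInjective (F.injective hφ)).symm ⟨φ y, ⟨y, rfl⟩⟩ : P) : G) = y
    rw [← this, MulEquiv.symm_apply_apply]
  have hψ := F.inv_mem hφ ψ h1
  have h2 : ∀ y ∈ P, toFun ψ (f y) = y := by
    intro y hy
    have : f y = φ ⟨y, hy⟩ := (hf ⟨y, hy⟩).symm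
    rw [this]
    have h3 : φ ⟨y, hy⟩ ∈ φ.range := ⟨_, rfl⟩
    rw [toFun_apply' ψ h3]
    exact h1 _
  refine ⟨toFun ψ, ?_, h2, ?_⟩
  · rw [← hr]
    exact mor_of_mem hψ
  · intro y hy
    rw [← hr] at hy
    obtain ⟨z, rfl⟩ := hy
    rw [hf, h2 z z.2]
    exact ⟨z.2, rfl⟩

theorem im_le (h : F.Mor P f) (hQ : Q ≤ P) : im f Q ≤ F.S := by
  intro y hy
  rw [mem_im (h.mulOn.mono hQ)] at hy
  obtain ⟨z, hz, rfl⟩ := hy
  exact h.map_mem (hQ hz)

theorem im_le_im_iff (h : F.Mor P f) (hQ : Q ≤ P) (hR : R ≤ P) : im f Q ≤ im f R ↔ Q ≤ R := by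
  refine ⟨fun h1 y hy => ?_, fun h => im_mono f h⟩
  have := h1 (mem_im_of_mem f hy)
  rw [mem_im (h.mulOn.mono hR)] at this
  obtain ⟨z, hz, e⟩ := this
  rwa [← h.inj (hR hz) (hQ hy) e]

theorem im_inj (h : F.Mor P f) (hQ : Q ≤ P) (hR : R ≤ P) (e : im f Q = im f R) : Q = R :=
  le_antisymm ((h.im_le_im_iff hQ hR).1 e.le) ((h.im_le_im_iff hR hQ).1 e.ge)

theorem mem_im_iff (h : F.Mor P f) (hQ : Q ≤ P) {y : G} (hy : y ∈ P) :
    f y ∈ im f Q ↔ y ∈ Q := by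
  constructor
  · intro h1
    rw [mem_im (h.mulOn.mono hQ)] at h1
    obtain ⟨z, hz, e⟩ := h1
    rwa [← h.inj (hQ hz) hy e]
  · exact mem_im_of_mem f

end Mor

theorem hom_one {Q : Subgroup G} (hQ : Q ≤ F.S) :
    Q.subtype.comp (1 : MulAut Q).toMonoidHom ∈ F.Hom Q :=
  (Mor.id' hQ).mem_hom _ (fun _ => rfl)

theorem hom_mul {Q : Subgroup G} {χ χ' : MulAut Q}
    (h : Q.subtype.comp χ.toMonoidHom ∈ F.Hom Q) (h' : Q.subtype.comp χ'.toMonoidHom ∈ F.Hom Q) :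
    Q.subtype.comp (χ * χ').toMonoidHom ∈ F.Hom Q := by
  refine ((mor_of_mem h').comp (mor_of_mem h) ?_).mem_hom _ ?_
  · intro y hy
    rw [toFun_apply' _ hy]
    exact (χ' ⟨y, hy⟩).2
  · intro y
    show _ = toFun _ (toFun _ (y : G))
    rw [toFun_apply]
    show _ = toFun _ ((χ' y : Q) : G)
    rw [toFun_apply]
    rfl

theorem hom_inv {Q : Subgroup G} {χ : MulAut Q}
    (h : Q.subtype.comp χ.toMonoidHom ∈ F.Hom Q) :
    Q.subtype.comp (χ⁻¹).toMonoidHom ∈ F.Hom Q := by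
  obtain ⟨g, hg, hgf, hfg⟩ := (mor_of_mem h).exists_inv
  have hi : im (toFun (Q.subtype.comp χ.toMonoidHom)) Q = Q := by
    ext y
    rw [mem_im (mor_of_mem h).mulOn]
    constructor
    · rintro ⟨z, hz, rfl⟩
      rw [toFun_apply' _ hz]
      exact (χ ⟨z, hz⟩).2
    · intro hy
      refine ⟨(χ⁻¹ ⟨y, hy⟩ : Q), (χ⁻¹ ⟨y, hy⟩ : Q).2, ?_⟩
      rw [toFun_apply]
      show ((χ (χ⁻¹ ⟨y, hy⟩) : Q) : G) = y
      rw [MulAut.apply_inv_self]
  rw [hi] at hg
  refine hg.mem_hom _ (fun y => ?_)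
  show ((χ⁻¹ y : Q) : G) = g y
  have := hgf (χ⁻¹ y : Q) (χ⁻¹ y : Q).2
  rw [toFun_apply] at this
  rw [← this]
  show g ((χ (χ⁻¹ y) : Q) : G) = g y
  rw [MulAut.apply_inv_self]

end FusionSystem

end Pool.Agent.W452.FS
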