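import Pool.Agent.W452.FS.D4

/-!
# Basic properties of the definitions
-/

namespace Pool.Agent.W452.FS

universe u v

theorem H2.comap_comap {k : Type*} [Field k] {H H' H'' : Type*} [Group H] [Group H']
    [Group H''] (f : H' →* H) (g : H'' →* H') (α : H2 k H) :
    H2.comap g (H2.comap f α) = H2.comap (f.comp g) α := by
  induction α using Quotient.inductionOn
  rfl

theorem zTw_comap {k : Type*} [Field k] {H H' : Type*} [Group H] [Group H'] (e : H ≃* H')
    (α : H2 k H') : zTw (α.comap e.toMonoidHom) = zTw α := by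
  induction α using Quotient.inductionOn with
  | h a => exact zNum_twisted e ((cohomologous_equivalence k H).refl _)

variable {G : Type u} [Group G]

namespace FusionSystem

variable {F : FusionSystem G}

theorem IsIso.source_le {P Q : Subgroup G} {e : P ≃* Q} (h : F.IsIso e) : P ≤ F.S :=
  F.source_le h

theorem IsIso.mor {P Q : Subgroup G} {e : P ≃* Q} (h : F.IsIso e) :
    F.Mor P (toFun (Q.subtype.comp e.toMonoidHom)) := mor_of_mem h

theorem toFun_equiv {P Q : Subgroup G} (e : P ≃* Q) (y : P) :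
    toFun (Q.subtype.comp e.toMonoidHom) y = e y := toFun_apply _ y

theorem im_toFun_equiv {P Q : Subgroup G} (e : P ≃* Q) :
    im (toFun (Q.subtype.comp e.toMonoidHom)) P = Q := by
  rw [← Mor.range_eq (φ := Q.subtype.comp e.toMonoidHom) (fun y => (toFun_apply _ y).symm)]
  ext y
  constructor
  · rintro ⟨z, rfl⟩
    exact (e z).2
  · intro hy
    exact ⟨e.symm ⟨y, hy⟩, by simp⟩

theorem IsIso.symm {P Q : Subgroup G} {e : P ≃* Q} (h : F.IsIso e) : F.IsIso e.symm := by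
  obtain ⟨g, hg, hgf, -⟩ := h.mor.exists_inv
  rw [im_toFun_equiv] at hg
  refine hg.mem_hom _ fun y => ?_
  have := hgf (e.symm y) (e.symm y).2
  rw [toFun_equiv, e.apply_symm_apply] at this
  exact this.symm

theorem IsIso.target_le {P Q : Subgroup G} {e : P ≃* Q} (h : F.IsIso e) : Q ≤ F.S :=
  h.symm.source_le

theorem mem_aut_iff {P : Subgroup G} (hP : P ≤ F.S) {χ : MulAut P} :
    χ ∈ F.Aut P ↔ P.subtype.comp χ.toMonoidHom ∈ F.Hom P :=
  ⟨fun h => h hP, fun h _ => h⟩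

theorem IsIso.congr_mem {P Q : Subgroup G} {e : P ≃* Q} (h : F.IsIso e) {χ : MulAut P}
    (hχ : χ ∈ F.Aut P) : MulAut.congr e χ ∈ F.Aut Q := by
  rw [mem_aut_iff h.source_le] at hχ
  rw [mem_aut_iff h.target_le]
  refine (((h.symm.mor).comp (mor_of_mem hχ) ?_).comp h.mor ?_).mem_hom _ ?_
  · intro y hy
    rw [toFun_apply' _ hy]
    exact (e.symm ⟨y, hy⟩).2
  · intro y hy
    show toFun _ (toFun _ y) ∈ P
    rw [toFun_apply' _ hy]
    show toFun (P.subtype.comp χ.toMonoidHom) ((e.symm ⟨y, hy⟩ : P) : G) ∈ P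
    rw [toFun_apply]
    exact (χ (e.symm ⟨y, hy⟩)).2
  · intro y
    show _ = toFun _ (toFun _ (toFun _ (y : G)))
    rw [toFun_apply]
    show _ = toFun _ (toFun (P.subtype.comp χ.toMonoidHom) ((e.symm y : P) : G))
    rw [toFun_apply]
    show _ = toFun _ ((χ (e.symm y) : P) : G)
    rw [toFun_apply]
    rfl

/-- The isomorphism `Aut_F(P) ≃ Aut_F(Q)` given by conjugation with an isomorphism `e : P ≃ Q`
of the fusion system. -/
def autCongr {P Q : Subgroup G} (e : P ≃* Q) (h : F.IsIso e) : F.Aut P ≃* F.Aut Q where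
  toFun χ := ⟨MulAut.congr e χ.1, h.congr_mem χ.2⟩
  invFun χ := ⟨MulAut.congr e.symm χ.1, h.symm.congr_mem χ.2⟩
  left_inv χ := by
    ext y; simp [MulAut.congr]
  right_inv χ := by
    ext y; simp [MulAut.congr]
  map_mul' χ χ' := by
    ext y; simp

theorem toOut_surjective {Q : Subgroup G} (B : Subgroup (MulAut Q)) :
    Function.Surjective (toOut B) := QuotientGroup.mk'_surjective _

theorem toOut_eq_iff {Q : Subgroup G} {B : Subgroup (MulAut Q)} {a b : B} :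
    toOut B a = toOut B b ↔ a.1⁻¹ * b.1 ∈ Inn Q :=
  QuotientGroup.eq.trans Subgroup.mem_subgroupOf

/-- Homomorphisms from `OutOf B`. -/
def outLift {Q : Subgroup G} (B : Subgroup (MulAut Q)) {M : Type*} [Group M] (f : B →* M)
    (h : ∀ χ : B, χ.1 ∈ Inn Q → f χ = 1) : OutOf B →* M :=
  QuotientGroup.lift ((Inn Q).subgroupOf B) f fun χ hχ => h χ (Subgroup.mem_subgroupOf.1 hχ)

theorem outLift_toOut {Q : Subgroup G} (B : Subgroup (MulAut Q)) {M : Type*} [Group M]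
    (f : B →* M) (h : ∀ χ : B, χ.1 ∈ Inn Q → f χ = 1) (χ : B) :
    outLift B f h (toOut B χ) = f χ := rfl

/-- Isomorphisms of groups `OutOf B`. -/
def outEquiv {P Q : Subgroup G} {B : Subgroup (MulAut P)} {C : Subgroup (MulAut Q)}
    (e : B ≃* C) (h : ∀ χ : B, χ.1 ∈ Inn P → (e χ).1 ∈ Inn Q)
    (h' : ∀ χ : C, χ.1 ∈ Inn Q → (e.symm χ).1 ∈ Inn P) : OutOf B ≃* OutOf C :=
  QuotientGroup.congr _ _ e (by
    ext χ
    rw [Subgroup.mem_map, Subgroup.mem_subgroupOf]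
    constructor
    · rintro ⟨χ', hχ', rfl⟩
      exact h χ' (Subgroup.mem_subgroupOf.1 hχ')
    · intro hχ
      exact ⟨e.symm χ, Subgroup.mem_subgroupOf.2 (h' χ hχ), e.apply_symm_apply χ⟩)

theorem outEquiv_toOut {P Q : Subgroup G} {B : Subgroup (MulAut P)} {C : Subgroup (MulAut Q)}
    (e : B ≃* C) (h : ∀ χ : B, χ.1 ∈ Inn P → (e χ).1 ∈ Inn Q)
    (h' : ∀ χ : C, χ.1 ∈ Inn Q → (e.symm χ).1 ∈ Inn P) (χ : B) :
    outEquiv e h h' (toOut B χ) = toOut C (e χ) := rfl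

theorem congr_mem_inn {P Q : Subgroup G} (e : P ≃* Q) {χ : MulAut P} (h : χ ∈ Inn P) :
    MulAut.congr e χ ∈ Inn Q := by
  obtain ⟨y, rfl⟩ := h
  refine ⟨e y, ?_⟩
  ext z
  show _ = ((e (y * (e.symm z) * y⁻¹) : Q) : G)
  simp

/-- The isomorphism `Out_F(P) ≃ Out_F(Q)` given by conjugation with an isomorphism `e : P ≃ Q`
of the fusion system. -/
def outCongr {P Q : Subgroup G} (e : P ≃* Q) (h : F.IsIso e) : F.Out P ≃* F.Out Q :=
  outEquiv (autCongr e h) (fun _ hχ => congr_mem_inn e hχ) (fun _ hχ => congr_mem_inn e.symm hχ)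

theorem localSub_S {𝒬 : Set (Subgroup G)} {X : Set G} (hS : span 𝒬 X ≤ F.S) :
    (F.localSub 𝒬 X).S = F.stab 𝒬 X := by
  rw [localSub, dif_pos hS]

theorem localSub_Hom {𝒬 : Set (Subgroup G)} {X : Set G} (hS : span 𝒬 X ≤ F.S) :
    (F.localSub 𝒬 X).Hom = F.localHom 𝒬 X := by
  rw [localSub, dif_pos hS]

theorem localSub_mor {𝒬 : Set (Subgroup G)} {X : Set G} (hS : span 𝒬 X ≤ F.S)
    {P : Subgroup G} {f : G → G} : (F.localSub 𝒬 X).Mor P f ↔ P ≤ F.stab 𝒬 X ∧
      ∃ g, F.Mor (span 𝒬 X ⊔ P) g ∧ FixesFun 𝒬 X g ∧ ∀ y ∈ P, g y = f y := by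
  show _ ↔ F.LMor 𝒬 X P f
  rw [Mor, localSub_Hom hS]
  constructor
  · rintro ⟨φ, hφ, h⟩
    exact (mem_localHom_iff h).1 hφ
  · intro h
    obtain ⟨h1, g, h2, h3, h4⟩ := h
    obtain ⟨ψ, hψ, h5⟩ := h2.mono (le_sup_right : P ≤ span 𝒬 X ⊔ P)
    have h6 : ∀ y : P, ψ y = f y := fun y => (h5 y).trans (h4 y y.2)
    exact ⟨ψ, (mem_localHom_iff h6).2 ⟨h1, g, h2, h3, h4⟩, h6⟩


/-- The condition on the homomorphism in the definition of `Family.res`. -/
abbrev IsInducedHom (F : FusionSystem G) (𝒬 : Set (Subgroup G)) (X : Set G) (P : Subgroup G)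
    (f : (F.localSub 𝒬 X).Out P →* F.Out (span 𝒬 X ⊔ P)) : Prop :=
  IsInduced 𝒬 X ((F.localSub 𝒬 X).Aut P) (F.Aut (span 𝒬 X ⊔ P)) f

theorem exists_fullyCentralized [Finite G] (c : Quotient F.elemSetoid) :
    ∃ x, (∃ h : x ∈ F.S, Quotient.mk F.elemSetoid ⟨x, h⟩ = c) ∧
      F.FullyCentralized (Subgroup.zpowers x) := by
  classical
  obtain ⟨x, hx, hmax⟩ := Set.exists_max_image
    {x : {x : G // x ∈ F.S} | Quotient.mk F.elemSetoid x = c}
    (fun x => Nat.card ↥(F.S ⊓ Subgroup.centralizer (Subgroup.zpowers x.1 : Set G)))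
    (Set.toFinite _) (by
      obtain ⟨x, hx⟩ := Quotient.exists_rep c
      exact ⟨x, hx⟩)
  refine ⟨x.1, ⟨x.2, hx⟩, by simp, fun φ hφ => ?_⟩
  have h1 := mor_of_mem hφ
  have h2 : φ.range = Subgroup.zpowers (toFun φ x.1) := by
    rw [← im_zpowers h1.mulOn]
    exact Mor.range_eq fun y => (toFun_apply φ y).symm
  have h3 := hmax ⟨toFun φ x.1, h1.map_mem (Subgroup.mem_zpowers _)⟩ (by
    rw [Set.mem_ofPred_eq, ← hx]
    exact Quotient.sound (s := F.elemSetoid) (F.elemSetoid.symm (conj_iff.2 ⟨_, h1, rfl⟩)))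
  rw [h2]
  exact h3

theorem rep_spec [Finite G] (c : Quotient F.elemSetoid) :
    ∃ h : F.rep c ∈ F.S, Quotient.mk F.elemSetoid ⟨F.rep c, h⟩ = c :=
  (Classical.epsilon_spec (exists_fullyCentralized c)).1

theorem rep_full [Finite G] (c : Quotient F.elemSetoid) :
    F.FullyCentralized (Subgroup.zpowers (F.rep c)) :=
  (Classical.epsilon_spec (exists_fullyCentralized c)).2

end FusionSystem

end Pool.Agent.W452.FS
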