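import Pool.Agent.W452.FS.Ker

/-!
# The terms of the expansion
-/

namespace Pool.Agent.W452.FS

universe u v

variable {G : Type u} [Group G]

namespace FusionSystem

variable {F : FusionSystem G}

/-- A morphism mapping `R` onto itself gives an automorphism. -/
theorem Mor.exists_aut {R : Subgroup G} {g : G → G} (hg : F.Mor R g) (h : im g R = R) :
    ∃ χ : F.Aut R, ∀ y ∈ R, af χ.1 y = g y := by
  obtain ⟨e, he, hef⟩ := hg.exists_equiv h
  refine ⟨⟨e, (mem_aut_iff' hg.le).2 (hg.congr fun y hy => ?_)⟩, fun y hy => ?_⟩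
  · rw [af_apply' _ hy]; exact (hef ⟨y, hy⟩).symm
  · rw [af_apply' _ hy]; exact hef ⟨y, hy⟩

theorem aut_mor {R : Subgroup G} (hR : R ≤ F.S) (χ : F.Aut R) : F.Mor R (af χ.1) :=
  (mem_aut_iff' hR).1 χ.2

theorem aut_ext {R : Subgroup G} {χ χ' : MulAut R} (h : ∀ y ∈ R, af χ y = af χ' y) :
    χ = χ' := by
  ext y
  have := h y y.2
  rwa [af_apply, af_apply] at this

theorem mem_inn_iff {R : Subgroup G} {χ : MulAut R} :
    χ ∈ Inn R ↔ ∃ z ∈ R, ∀ y ∈ R, af χ y = z * y * z⁻¹ := by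
  constructor
  · rintro ⟨z, rfl⟩
    refine ⟨z, z.2, fun y hy => ?_⟩
    rw [af_apply' _ hy]; rfl
  · rintro ⟨z, hz, h⟩
    refine ⟨⟨z, hz⟩, aut_ext fun y hy => ?_⟩
    rw [h y hy, af_apply' _ hy]; rfl

theorem af_one {R : Subgroup G} {y : G} (hy : y ∈ R) : af (1 : MulAut R) y = y := by
  rw [af_apply' _ hy]; rfl

theorem im_af_mul {R Q : Subgroup G} (χ χ' : MulAut R) (hQ : Q ≤ R) :
    im (af (χ * χ')) Q = im (af χ) (im (af χ') Q) := by
  rw [← im_comp (mulOn_af χ') Q hQ]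
  exact im_congr fun y hy => af_mul χ χ' (hQ hy)

theorem im_af_inv {R Q : Subgroup G} (χ : MulAut R) (hQ : Q ≤ R) (h : im (af χ) Q = Q) :
    im (af χ⁻¹) Q = Q := by
  have := im_af_mul χ⁻¹ χ hQ
  rw [inv_mul_cancel, h] at this
  rw [← this]
  exact (im_congr fun y hy => af_one (hQ hy)).trans (im_id Q)

/-- Existence of the induced homomorphism. -/
theorem exists_inducedHom {𝒬 : Set (Subgroup G)} {X : Set G} {P : Subgroup G}
    (hS : span 𝒬 X ≤ F.S) (hP : P ≤ F.stab 𝒬 X)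
    (hker : ∀ χ ∈ F.Aut (span 𝒬 X ⊔ P), FixesFun 𝒬 X (af χ) →
      (∀ y ∈ P, af χ y = y) →
      ∃ z ∈ span 𝒬 X ⊔ P, ∀ y ∈ span 𝒬 X ⊔ P, af χ y = z * y * z⁻¹) :
    ∃ f, F.IsInducedHom 𝒬 X P f := by
  classical
  set R := span 𝒬 X ⊔ P with hR
  have hspR : span 𝒬 X ≤ R := le_sup_left
  have hPR : P ≤ R := le_sup_right
  have hRS : R ≤ F.S := sup_le hS (hP.trans (stab_le _ _))
  set E := F.localSub 𝒬 X with hE
  have hES : E.S = F.stab 𝒬 X := localSub_S hS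
  have hPE : P ≤ E.S := by rw [hES]; exact hP
  -- existence of extensions
  have hex : ∀ χ' : E.Aut P, ∃ χ : F.Aut R, FixesFun 𝒬 X (af χ.1) ∧
      ∀ y ∈ P, af χ.1 y = af χ'.1 y := by
    intro χ'
    have h1 := aut_mor hPE χ'
    obtain ⟨-, g, hg, hgf, hgy⟩ := (localSub_mor hS).1 h1
    have h2 : im g R = R := by
      rw [im_span_sup hg.mulOn hspR hPR hgf, im_congr hgy, im_af]
    obtain ⟨χ, hχ⟩ := hg.exists_aut h2
    refine ⟨χ, hgf.congr fun y hy => (hχ y (hspR hy)).symm, fun y hy => ?_⟩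
    rw [hχ y (hPR hy), hgy y hy]
  -- uniqueness modulo inner automorphisms
  have huniq : ∀ χ₁ χ₂ : F.Aut R, FixesFun 𝒬 X (af χ₁.1) → FixesFun 𝒬 X (af χ₂.1) →
      (∃ u ∈ P, ∀ y ∈ P, af χ₁.1 y = af χ₂.1 (u * y * u⁻¹)) →
      toOut (F.Aut R) χ₁ = toOut (F.Aut R) χ₂ := by
    rintro χ₁ χ₂ h1 h2 ⟨u, hu, huy⟩
    have hustab := mem_stab.1 (hP hu)
    -- conjugation by `u` as an automorphism of `R`
    have hcu : F.Mor R (FS.cj u) := Mor.cj hustab.1 hRS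
    have hcuR : im (FS.cj u) R = R := mem_normalizer_iff_im.1 (Subgroup.le_normalizer (hPR hu))
    obtain ⟨κ, hκ⟩ := hcu.exists_aut hcuR
    have hκf : FixesFun 𝒬 X (af κ.1) := hustab.2.congr fun y hy => (hκ y (hspR hy)).symm
    have hmem1 : χ₁.1 ∈ F.autFix R 𝒬 X hspR := ⟨χ₁.2, h1⟩
    have hmem2 : χ₂.1 ∈ F.autFix R 𝒬 X hspR := ⟨χ₂.2, h2⟩
    have hmem3 : κ.1 ∈ F.autFix R 𝒬 X hspR := ⟨κ.2, hκf⟩
    have hmem := Subgroup.mul_mem _ (Subgroup.inv_mem _ (Subgroup.mul_mem _ hmem2 hmem3)) hmem1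
    obtain ⟨z, hz, hzy⟩ := hker _ hmem.1 hmem.2 (by
      intro y hy
      rw [af_mul _ _ (hPR hy), huy y hy]
      have h4 : af χ₂.1 (u * y * u⁻¹) = af (χ₂.1 * κ.1) y := by
        rw [af_mul _ _ (hPR hy), hκ y (hPR hy)]; rfl
      rw [h4, af_inv_af _ (hPR hy)])
    have hinn : (χ₂.1 * κ.1)⁻¹ * χ₁.1 ∈ Inn R := mem_inn_iff.2 ⟨z, hz, hzy⟩
    have hκinn : κ.1 ∈ Inn R := mem_inn_iff.2 ⟨u, hPR hu, hκ⟩
    symm
    rw [toOut_eq_iff]
    have h5 : χ₂.1⁻¹ * χ₁.1 = κ.1 * ((χ₂.1 * κ.1)⁻¹ * χ₁.1) := by group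
    rw [h5]
    exact Subgroup.mul_mem _ hκinn hinn
  choose ext hext1 hext2 using hex
  have huniq' : ∀ χ₁ χ₂ : F.Aut R, FixesFun 𝒬 X (af χ₁.1) → FixesFun 𝒬 X (af χ₂.1) →
      (∀ y ∈ P, af χ₁.1 y = af χ₂.1 y) →
      toOut (F.Aut R) χ₁ = toOut (F.Aut R) χ₂ := by
    intro χ₁ χ₂ h1 h2 h
    refine huniq χ₁ χ₂ h1 h2 ⟨1, P.one_mem, fun y hy => ?_⟩
    rw [h y hy]; simp
  let f₀ : E.Aut P →* F.Out R := MonoidHom.mk' (fun χ' => toOut _ (ext χ')) (by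
    intro χ₁ χ₂
    rw [← map_mul]
    have hmem := Subgroup.mul_mem (F.autFix R 𝒬 X hspR)
      (⟨(ext χ₁).2, hext1 χ₁⟩ : (ext χ₁).1 ∈ F.autFix R 𝒬 X hspR) ⟨(ext χ₂).2, hext1 χ₂⟩
    refine huniq' _ _ (hext1 _) hmem.2 fun y hy => ?_
    rw [hext2 _ y hy]
    show af (χ₁.1 * χ₂.1) y = af ((ext χ₁).1 * (ext χ₂).1) y
    rw [af_mul _ _ hy, af_mul _ _ (hPR hy), hext2 _ y hy, hext2 _ _ (af_mem _ hy)])
  have hf₀ : ∀ χ' : E.Aut P, χ'.1 ∈ Inn P → f₀ χ' = 1 := by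
    intro χ' h
    obtain ⟨u, hu, huy⟩ := mem_inn_iff.1 h
    show toOut _ (ext χ') = 1
    rw [← map_one (toOut (F.Aut R))]
    refine huniq _ _ (hext1 _) (Subgroup.one_mem (F.autFix R 𝒬 X hspR)).2
      ⟨u, hu, fun y hy => ?_⟩
    rw [hext2 _ y hy]
    have : u * y * u⁻¹ ∈ R := hPR (P.mul_mem (P.mul_mem hu hy) (P.inv_mem hu))
    show _ = af (1 : MulAut R) (u * y * u⁻¹)
    rw [af_one this]
    exact huy y hy
  refine ⟨outLift _ f₀ hf₀, ?_⟩
  intro χ' χ hχ h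
  rw [outLift_toOut]
  rw [fixes_af _ hspR] at hχ
  refine huniq' _ _ (hext1 _) hχ fun y hy => ?_
  rw [hext2 _ y hy, af_apply' _ hy, af_apply' _ (hPR hy)]
  exact (h ⟨y, hy⟩ ⟨y, hPR hy⟩ rfl).symm

theorem Family.res_eq {k : Type v} [Field k] (α : F.Family k) {𝒬 : Set (Subgroup G)}
    {X : Set G} {P : Subgroup G} (h : ∃ f, F.IsInducedHom 𝒬 X P f) :
    ∃ f, F.IsInducedHom 𝒬 X P f ∧ α.res 𝒬 X P = (α (span 𝒬 X ⊔ P)).comap f :=
  ⟨_, Classical.epsilon_spec h, rfl⟩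

/-- The class `cls` of the outer automorphism group defined by `B ≤ Aut(P)` is obtained from
`α_R` through a group of automorphisms `A` of `R` restricting onto `B`. -/
structure Rep {k : Type v} [Field k] (α : F.Family k) (R P : Subgroup G) (A : Set (MulAut R))
    (B : Subgroup (MulAut P)) (cls : H2 k (OutOf B)) : Prop where
  AB : ∀ χ ∈ A, χ ∈ F.Aut R ∧ ∃ β ∈ B, ∀ y ∈ P, af χ y = af β y
  BA : ∀ β ∈ B, ∃ χ ∈ A, ∀ y ∈ P, af χ y = af β y
  hom : ∃ f : OutOf B →* F.Out R, cls = (α R).comap f ∧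
    ∀ (χ : F.Aut R) (β : B), χ.1 ∈ A → (∀ y ∈ P, af χ.1 y = af β.1 y) →
      f (toOut _ β) = toOut _ χ

theorem af_congr {P Q : Subgroup G} (e : P ≃* Q) (g : G → G) (he : ∀ y : P, (e y : G) = g y)
    (χ : MulAut P) {y : G} (hy : y ∈ P) : af (MulAut.congr e χ) (g y) = g (af χ y) := by
  rw [af_apply' χ hy, ← he, ← he ⟨y, hy⟩, af_apply]
  show ((e (χ (e.symm (e ⟨y, hy⟩))) : Q) : G) = _
  rw [e.symm_apply_apply]

theorem Rep.zTw_eq {k : Type v} [Field k] {α : F.Family k} (hα : α.IsoInvariant)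
    {R P R' P' : Subgroup G} {A : Set (MulAut R)} {A' : Set (MulAut R')}
    {B : Subgroup (MulAut P)} {B' : Subgroup (MulAut P')}
    {cls : H2 k (OutOf B)} {cls' : H2 k (OutOf B')}
    (h : Rep α R P A B cls) (h' : Rep α R' P' A' B' cls')
    (hR : F.Centric R) (hR' : F.Centric R') (hPR : P ≤ R) {g : G → G} (hg : F.Mor R g)
    (hgR : im g R = R') (hgP : im g P = P')
    (hA : ∀ (χ : MulAut R) (χ' : MulAut R'), (∀ y ∈ R, af χ' (g y) = g (af χ y)) →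
      (χ ∈ A ↔ χ' ∈ A')) : zTw cls = zTw cls' := by
  obtain ⟨eR, heR, heRg⟩ := hg.exists_equiv hgR
  obtain ⟨eP, heP, hePg⟩ := (hg.mono hPR).exists_equiv hgP
  have hPR' : P' ≤ R' := by rw [← hgP, ← hgR]; exact im_mono g hPR
  have key : ∀ (χ : MulAut R) (β : MulAut P), (∀ y ∈ P, af χ y = af β y) →
      ∀ y ∈ P', af (MulAut.congr eR χ) y = af (MulAut.congr eP β) y := by
    intro χ β hχβ y hy
    rw [← hgP, mem_im (hg.mulOn.mono hPR)] at hy
    obtain ⟨z, hz, rfl⟩ := hy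
    rw [af_congr eR g heRg χ (hPR hz), af_congr eP g hePg β hz, hχβ z hz]
  have hAc : ∀ χ : MulAut R, χ ∈ A ↔ MulAut.congr eR χ ∈ A' := fun χ =>
    hA χ _ fun y hy => af_congr eR g heRg χ hy
  have hB : ∀ β : MulAut P, β ∈ B ↔ MulAut.congr eP β ∈ B' := by
    intro β
    constructor
    · intro hβ
      obtain ⟨χ, hχ, h1⟩ := h.BA β hβ
      obtain ⟨-, β', hβ', h2⟩ := h'.AB _ ((hAc χ).1 hχ)
      have : MulAut.congr eP β = β' := by
        refine aut_ext fun y hy => ?_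
        rw [← h2 y hy, key χ β h1 y hy]
      rwa [this]
    · intro hβ
      obtain ⟨χ', hχ', h1⟩ := h'.BA _ hβ
      set χ := (MulAut.congr eR).symm χ' with hχ
      have hχχ' : MulAut.congr eR χ = χ' := (MulAut.congr eR).apply_symm_apply χ'
      have h2 : χ ∈ A := (hAc χ).2 (by rw [hχχ']; exact hχ')
      obtain ⟨-, β', hβ', h3⟩ := h.AB χ h2
      have h4 := key χ β' h3
      have h5 : MulAut.congr eP β' = MulAut.congr eP β := by
        refine aut_ext fun y hy => ?_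
        rw [← h1 y hy, ← h4 y hy, hχχ']
      rwa [← (MulAut.congr eP).injective h5]
  let b : B ≃* B' :=
    { toFun := fun β => ⟨MulAut.congr eP β.1, (hB _).1 β.2⟩
      invFun := fun β => ⟨(MulAut.congr eP).symm β.1, (hB _).2 (by
        rw [(MulAut.congr eP).apply_symm_apply]; exact β.2)⟩
      left_inv := fun β => Subtype.ext ((MulAut.congr eP).symm_apply_apply β.1)
      right_inv := fun β => Subtype.ext ((MulAut.congr eP).apply_symm_apply β.1)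
      map_mul' := fun β β' => Subtype.ext (map_mul (MulAut.congr eP) β.1 β'.1) }
  let e : OutOf B ≃* OutOf B' := outEquiv b (fun _ h => congr_mem_inn eP h)
    (fun _ h => congr_mem_inn eP.symm h)
  obtain ⟨f, hf, hf1⟩ := h.hom
  obtain ⟨f', hf', hf1'⟩ := h'.hom
  have hcomm : f'.comp e.toMonoidHom = (outCongr eR heR).toMonoidHom.comp f := by
    refine MonoidHom.ext fun q => ?_
    obtain ⟨β, rfl⟩ := toOut_surjective B q
    show f' (toOut _ (b β)) = outCongr eR heR (f (toOut _ β))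
    obtain ⟨χ, hχ, h1⟩ := h.BA β.1 β.2
    have hχF := (h.AB χ hχ).1
    rw [hf1 ⟨χ, hχF⟩ β hχ h1]
    show _ = toOut _ (autCongr eR heR ⟨χ, hχF⟩)
    exact hf1' (autCongr eR heR ⟨χ, hχF⟩) (b β) ((hAc χ).1 hχ) (key χ β.1 h1)
  have hinv : (α R').comap (outCongr eR heR).toMonoidHom = α R := by
    refine hα R R' eR hR hR' heR _ fun χ χ' hχ => ?_
    have : χ' = autCongr eR heR χ := Subtype.ext hχ
    rw [this]
    rfl
  rw [← zTw_comap e cls', hf', H2.comap_comap, hcomm, ← H2.comap_comap, hinv, hf]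

end FusionSystem

end Pool.Agent.W452.FS
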