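import Pool.Agent.W452.FS.Term

/-!
# The terms of the expansion: invariance under isomorphism and toggling
-/

namespace Pool.Agent.W452.FS

universe u v

variable {G : Type u} [Group G]

theorem span_sup_sup {σ : Set (Subgroup G)} {x : G} {P : Subgroup G} (hx : x ∈ P) :
    span σ ∅ ⊔ (span ∅ {x} ⊔ P) = sSup σ ⊔ P := by
  have h1 : span (∅ : Set (Subgroup G)) {x} ≤ P := by
    rw [span_le]
    exact ⟨fun Q hQ => absurd hQ (Set.notMem_empty _), fun y hy => by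
      rw [Set.mem_singleton_iff.1 hy]; exact hx⟩
  rw [sup_eq_right.2 h1]
  simp [span]

theorem span_empty_right (σ : Set (Subgroup G)) : span σ ∅ = sSup σ := by simp [span]

theorem fixesFun_union' {σ : Set (Subgroup G)} {X : Set G} {f : G → G} :
    FixesFun σ X f ↔ FixesFun σ ∅ f ∧ FixesFun ∅ X f := by
  have := fixesFun_union (𝒬 := σ) (𝒬' := ∅) (X := ∅) (X' := X) (f := f)
  rwa [Set.union_empty, Set.empty_union] at this

theorem tg_fixed {F : FusionSystem G} {D : Subgroup G} {ψ : G → G} (hψ : F.Mor D ψ)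
    {τ : Set (Subgroup G)} {P : Subgroup G} (hτ : sSup τ ≤ D) (hP : P ≤ D)
    (h1 : ∀ Q ∈ τ, im ψ Q = Q) (h2 : im ψ P = P) : im ψ (tg τ P) = tg τ P := by
  have h3 : im ψ '' τ = τ := by
    ext Q
    constructor
    · rintro ⟨Q, hQ, rfl⟩
      rwa [h1 Q hQ]
    · intro hQ
      exact ⟨Q, hQ, h1 Q hQ⟩
  have := hψ.tg hτ hP
  rw [h3, h2] at this
  exact this.symm

theorem toggle_fixed {F : FusionSystem G} {D : Subgroup G} {ψ : G → G} (hψ : F.Mor D ψ)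
    {τ : Set (Subgroup G)} {P : Subgroup G} (hτ : sSup τ ≤ D) (hP : P ≤ D)
    (h1 : ∀ Q ∈ τ, im ψ Q = Q) (h2 : im ψ P = P) : ∀ Q ∈ toggle τ P, im ψ Q = Q := by
  intro Q hQ
  rw [toggle] at hQ
  split_ifs at hQ with h
  · exact h1 Q hQ.1
  · rcases hQ with rfl | hQ
    · exact tg_fixed hψ hτ hP h1 h2
    · exact h1 Q hQ

namespace FusionSystem

variable {F : FusionSystem G} {σ : Set (Subgroup G)} {x : G} {P : Subgroup G}

/-- The automorphisms of `R` in `F` stabilizing all members of `σ` and `P` and fixing `x`. -/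
def aset (F : FusionSystem G) (R : Subgroup G) (σ : Set (Subgroup G)) (x : G)
    (P : Subgroup G) : Set (MulAut R) :=
  {χ | χ ∈ F.Aut R ∧ FixesFun σ {x} (af χ) ∧ im (af χ) P = P}

/-- The term `z(k_{α(σ)(x)} Out_{C_{N_F(σ)}(x)}(P))`. -/
noncomputable def tterm {k : Type v} [Field k] (α : F.Family k) (σ : Set (Subgroup G)) (x : G)
    (P : Subgroup G) : ℕ := zTw (((α.res σ ∅).res ∅ {x}) P)

theorem IsTriple.le_stab (h : F.IsTriple σ x P) : P ≤ F.stab σ ∅ := by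
  intro y hy
  refine mem_stab.2 ⟨h.good.P_le hy, fun Q hQ => ?_, fun z hz => absurd hz (Set.notMem_empty _)⟩
  exact mem_normalizer_iff_im.1 (h.good.P_normal Q hQ hy)

theorem IsTriple.le_stab' (h : F.IsTriple σ x P) : P ≤ F.stab σ {x} := by
  intro y hy
  have h1 := mem_stab.1 (h.le_stab hy)
  refine mem_stab.2 ⟨h1.1, h1.2.1, fun z hz => ?_⟩
  rw [Set.mem_singleton_iff.1 hz, FS.cj, mul_inv_eq_iff_eq_mul]
  exact h.x_comm y hy

theorem IsTriple.span_le (h : F.IsTriple σ x P) : span σ {x} ≤ sSup σ ⊔ P :=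
  FS.span_le.2 ⟨fun _ hQ => (le_sSup hQ).trans le_sup_left, fun y hy => by
    rw [Set.mem_singleton_iff.1 hy]
    exact (le_sup_right : P ≤ sSup σ ⊔ P) h.x_mem⟩

theorem IsTriple.span_le_S (h : F.IsTriple σ x P) : span σ ∅ ≤ F.S := by
  rw [span_empty_right]; exact h.good.sSup_le

theorem IsTriple.x_mem_S (h : F.IsTriple σ x P) : x ∈ F.S := h.good.P_le h.x_mem

theorem IsTriple.zp_le (h : F.IsTriple σ x P) : span ∅ {x} ≤ P := by
  rw [span_elem, Subgroup.zpowers_le]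
  exact h.x_mem

theorem localSub_iter (hS : span σ ∅ ≤ F.S) (hx : x ∈ F.stab σ ∅) :
    (F.localSub σ ∅).localSub ∅ {x} = F.localSub σ {x} := by
  have := localSub_localSub (F := F) (𝒬 := σ) (𝒬' := ∅) (X := ∅) (X' := {x}) hS (by
    rw [span_elem, Subgroup.zpowers_le]; exact hx)
  rwa [Set.union_empty, Set.empty_union] at this

/-- `M P` is `F`-centric. -/
theorem IsTriple.centric_sup (h : F.IsTriple σ x P) : F.Centric (sSup σ ⊔ P) := by
  refine ⟨sup_le h.good.sSup_le h.good.P_le, fun φ hφ => ?_⟩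
  have h1 := mor_of_mem hφ
  have h2 : φ.range = im (toFun φ) (sSup σ ⊔ P) :=
    Mor.range_eq fun y => (toFun_apply φ y).symm
  rw [h2]
  intro c hc
  obtain ⟨hc1, hc2⟩ := Subgroup.mem_inf.1 hc
  rw [Subgroup.mem_centralizer_iff] at hc2
  have h3 : ∀ y ∈ sSup σ ⊔ P, FS.cj c (toFun φ y) = toFun φ y := by
    intro y hy
    rw [FS.cj, mul_inv_eq_iff_eq_mul]
    exact (hc2 _ (mem_im_of_mem _ hy)).symm
  refine im_mono _ le_sup_right (h.centric (toFun φ) h1 c hc1 ?_ ?_)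
  · intro Q hQ
    have hQ' : Q ≤ sSup σ ⊔ P := (le_sSup hQ).trans le_sup_left
    rw [← im_comp h1.mulOn Q hQ']
    exact im_congr fun y hy => h3 y (hQ' hy)
  · intro y hy
    exact (hc2 _ (mem_im_of_mem _ ((le_sup_right : P ≤ sSup σ ⊔ P) hy))).symm

variable [Finite G] {p : ℕ} [Fact p.Prime]

/-- The term of a triple is computed from the automorphisms of `M P`. -/
theorem IsTriple.rep (hsat : F.IsSaturated p) (hp : IsPGroup p F.S) {k : Type v} [Field k]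
    (α : F.Family k) (h : F.IsTriple σ x P) :
    Rep α (span σ ∅ ⊔ (span ∅ {x} ⊔ P)) P (aset F _ σ x P)
      (((F.localSub σ ∅).localSub ∅ {x}).Aut P) (((α.res σ ∅).res ∅ {x}) P) := by
  have hS := h.span_le_S
  have hxst : x ∈ F.stab σ ∅ := h.le_stab h.x_mem
  have hP1eq : span ∅ {x} ⊔ P = P := sup_eq_right.2 h.zp_le
  have hReq : span σ ∅ ⊔ (span ∅ {x} ⊔ P) = sSup σ ⊔ P := span_sup_sup h.x_mem
  have hRS : span σ ∅ ⊔ (span ∅ {x} ⊔ P) ≤ F.S := by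
    rw [hReq]; exact sup_le h.good.sSup_le h.good.P_le
  have hE1S : (F.localSub σ ∅).S = F.stab σ ∅ := localSub_S hS
  have hspx : span ∅ {x} ≤ (F.localSub σ ∅).S := by
    rw [hE1S, span_elem, Subgroup.zpowers_le]; exact hxst
  have hPst : P ≤ (F.localSub σ ∅).stab ∅ {x} := by
    rw [localSub_stab hS, Set.union_empty, Set.empty_union]
    exact h.le_stab'
  have hE2S : ((F.localSub σ ∅).localSub ∅ {x}).S = (F.localSub σ ∅).stab ∅ {x} :=
    localSub_S hspx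
  have hPR : P ≤ span σ ∅ ⊔ (span ∅ {x} ⊔ P) := le_sup_right.trans le_sup_right
  have hP1R : span ∅ {x} ⊔ P ≤ span σ ∅ ⊔ (span ∅ {x} ⊔ P) := le_sup_right
  have hσR : ∀ Q ∈ σ, Q ≤ span σ ∅ ⊔ (span ∅ {x} ⊔ P) := fun Q hQ =>
    (le_span ∅ hQ).trans le_sup_left
  have hxR : x ∈ span σ ∅ ⊔ (span ∅ {x} ⊔ P) := hPR h.x_mem
  have hP1st : span ∅ {x} ⊔ P ≤ F.stab σ ∅ := by rw [hP1eq]; exact h.le_stab
  -- the induced homomorphisms
  have hex1 : ∃ f, F.IsInducedHom σ ∅ (span ∅ {x} ⊔ P) f := by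
    refine exists_inducedHom hS hP1st ?_
    intro χ hχ hχf hχP
    obtain ⟨z, hz, hzy⟩ := h.ker hsat hp hReq.symm hχ hχf.1
      (fun y hy => hχP y ((le_sup_right : P ≤ span ∅ {x} ⊔ P) hy))
    exact ⟨z, hPR hz, hzy⟩
  have hex2 : ∃ f, (F.localSub σ ∅).IsInducedHom ∅ {x} P f := by
    refine exists_inducedHom hspx hPst ?_
    intro χ hχ hχf hχP
    refine ⟨1, Subgroup.one_mem _, fun y hy => ?_⟩
    rw [hP1eq] at hy
    rw [hχP y hy]
    simp
  obtain ⟨f1, hf1, hf1'⟩ := Family.res_eq α hex1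
  obtain ⟨f2, hf2, hf2'⟩ := Family.res_eq (α.res σ ∅) hex2
  -- `χ ∈ A` restricts to a morphism of the local systems
  have hmor1 : ∀ χ ∈ aset F (span σ ∅ ⊔ (span ∅ {x} ⊔ P)) σ x P,
      (F.localSub σ ∅).Mor (span ∅ {x} ⊔ P) (af χ) := by
    rintro χ ⟨h1, h2, h3⟩
    exact (localSub_mor hS).2 ⟨hP1st, af χ, (mem_aut_iff' hRS).1 h1, (fixesFun_union'.1 h2).1,
      fun _ _ => rfl⟩
  have hmor2 : ∀ χ ∈ aset F (span σ ∅ ⊔ (span ∅ {x} ⊔ P)) σ x P,
      ((F.localSub σ ∅).localSub ∅ {x}).Mor P (af χ) := by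
    intro χ hχ
    exact (localSub_mor hspx).2 ⟨hPst, af χ, hmor1 χ hχ, (fixesFun_union'.1 hχ.2.1).2,
      fun _ _ => rfl⟩
  have him1 : ∀ χ ∈ aset F (span σ ∅ ⊔ (span ∅ {x} ⊔ P)) σ x P,
      im (af χ) (span ∅ {x} ⊔ P) = span ∅ {x} ⊔ P := by
    intro χ hχ
    rw [im_span_sup (mulOn_af χ) (le_sup_left.trans hP1R) hPR (fixesFun_union'.1 hχ.2.1).2,
      hχ.2.2]
  refine ⟨?_, ?_, ?_⟩
  · intro χ hχ
    refine ⟨hχ.1, ?_⟩
    obtain ⟨β, hβ⟩ := (hmor2 χ hχ).exists_aut hχ.2.2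
    exact ⟨β.1, β.2, fun y hy => (hβ y hy).symm⟩
  · intro β hβ
    have h1 : ((F.localSub σ ∅).localSub ∅ {x}).Mor P (af β) :=
      (mem_aut_iff' (by rw [hE2S]; exact hPst)).1 hβ
    obtain ⟨-, g, hg, hgf, hgy⟩ := (localSub_mor hspx).1 h1
    obtain ⟨-, g', hg', hgf', hgy'⟩ := (localSub_mor hS).1 hg
    have h2 : im g' (span ∅ {x} ⊔ P) = span ∅ {x} ⊔ P := by
      rw [im_congr hgy', im_span_sup hg.mulOn le_sup_left le_sup_right hgf, im_congr hgy, im_af]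
    have h3 : im g' (span σ ∅ ⊔ (span ∅ {x} ⊔ P)) = span σ ∅ ⊔ (span ∅ {x} ⊔ P) := by
      rw [im_span_sup hg'.mulOn le_sup_left hP1R hgf', h2]
    obtain ⟨χ, hχ⟩ := hg'.exists_aut h3
    have hagree : ∀ y ∈ P, af χ.1 y = af β y := by
      intro y hy
      rw [hχ y (hPR hy), hgy' y ((le_sup_right : P ≤ span ∅ {x} ⊔ P) hy), hgy y hy]
    refine ⟨χ.1, ⟨χ.2, ⟨fun Q hQ => ?_, fun y hy => ?_⟩, ?_⟩, hagree⟩
    · rw [im_congr fun y hy => hχ y (hσR Q hQ hy)]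
      exact hgf'.1 Q hQ
    · rw [Set.mem_singleton_iff.1 hy, hχ x hxR, hgy' x
        ((le_sup_right : P ≤ span ∅ {x} ⊔ P) h.x_mem)]
      exact hgf.2 x rfl
    · rw [im_congr hagree, im_af]
  · refine ⟨f1.comp f2, ?_, ?_⟩
    · rw [hf2', hf1', H2.comap_comap]
    · intro χ β hχ hχβ
      obtain ⟨χ₁, hχ₁⟩ := (hmor1 χ.1 hχ).exists_aut (him1 χ.1 hχ)
      have h1 : f2 (toOut _ β) = toOut _ χ₁ := by
        refine hf2 β χ₁ ?_ ?_
        · rw [fixes_af _ le_sup_left]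
          refine ⟨fun Q hQ => absurd hQ (Set.notMem_empty _), fun y hy => ?_⟩
          rw [Set.mem_singleton_iff.1 hy,
            hχ₁ x ((le_sup_right : P ≤ span ∅ {x} ⊔ P) h.x_mem)]
          exact hχ.2.1.2 x rfl
        · intro y z hz
          rw [← af_apply χ₁.1 z, hz, hχ₁ y ((le_sup_right : P ≤ span ∅ {x} ⊔ P) y.2),
            hχβ y y.2, af_apply]
      have h2 : f1 (toOut _ χ₁) = toOut _ χ := by
        refine hf1 χ₁ χ ?_ ?_
        · rw [fixes_af _ le_sup_left]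
          exact (fixesFun_union'.1 hχ.2.1).1
        · intro y z hz
          rw [← af_apply χ.1 z, hz, ← hχ₁ y y.2, af_apply]
      show f1 (f2 (toOut _ β)) = _
      rw [h1, h2]

omit [Finite G] in
/-- The term of a pair `(x, P)` for `F` itself. -/
theorem IsTriple.rep_pair {k : Type v} [Field k]
    (α : F.Family k) (h : F.IsTriple ∅ x P) :
    Rep α (span ∅ {x} ⊔ P) P (aset F _ ∅ x P) ((F.localSub ∅ {x}).Aut P)
      ((α.res ∅ {x}) P) := by
  have hP1eq : span ∅ {x} ⊔ P = P := sup_eq_right.2 h.zp_le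
  have hRS : span ∅ {x} ⊔ P ≤ F.S := by rw [hP1eq]; exact h.good.P_le
  have hspx : span ∅ {x} ≤ F.S := le_sup_left.trans hRS
  have hPst : P ≤ F.stab ∅ {x} := h.le_stab'
  have hE2S : (F.localSub ∅ {x}).S = F.stab ∅ {x} := localSub_S hspx
  have hPR : P ≤ span ∅ {x} ⊔ P := le_sup_right
  have hxR : x ∈ span ∅ {x} ⊔ P := hPR h.x_mem
  have hex2 : ∃ f, F.IsInducedHom ∅ {x} P f := by
    refine exists_inducedHom hspx hPst ?_
    intro χ hχ hχf hχP
    refine ⟨1, Subgroup.one_mem _, fun y hy => ?_⟩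
    rw [hP1eq] at hy
    rw [hχP y hy]
    simp
  obtain ⟨f2, hf2, hf2'⟩ := Family.res_eq α hex2
  have hmor2 : ∀ χ ∈ aset F (span ∅ {x} ⊔ P) ∅ x P, (F.localSub ∅ {x}).Mor P (af χ) := by
    intro χ hχ
    exact (localSub_mor hspx).2 ⟨hPst, af χ, (mem_aut_iff' hRS).1 hχ.1, hχ.2.1,
      fun _ _ => rfl⟩
  refine ⟨?_, ?_, ?_⟩
  · intro χ hχ
    refine ⟨hχ.1, ?_⟩
    obtain ⟨β, hβ⟩ := (hmor2 χ hχ).exists_aut hχ.2.2
    exact ⟨β.1, β.2, fun y hy => (hβ y hy).symm⟩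
  · intro β hβ
    have h1 : (F.localSub ∅ {x}).Mor P (af β) :=
      (mem_aut_iff' (by rw [hE2S]; exact hPst)).1 hβ
    obtain ⟨-, g, hg, hgf, hgy⟩ := (localSub_mor hspx).1 h1
    have h3 : im g (span ∅ {x} ⊔ P) = span ∅ {x} ⊔ P := by
      rw [im_span_sup hg.mulOn le_sup_left le_sup_right hgf, im_congr hgy, im_af]
    obtain ⟨χ, hχ⟩ := hg.exists_aut h3
    have hagree : ∀ y ∈ P, af χ.1 y = af β y := by
      intro y hy
      rw [hχ y (hPR hy), hgy y hy]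
    refine ⟨χ.1, ⟨χ.2, ⟨fun Q hQ => absurd hQ (Set.notMem_empty _), fun y hy => ?_⟩, ?_⟩,
      hagree⟩
    · rw [Set.mem_singleton_iff.1 hy, hχ x hxR]
      exact hgf.2 x rfl
    · rw [im_congr hagree, im_af]
  · refine ⟨f2, hf2', ?_⟩
    intro χ β hχ hχβ
    refine hf2 β χ ?_ ?_
    · rw [fixes_af _ le_sup_left]
      exact hχ.2.1
    · intro y z hz
      rw [← af_apply χ.1 z, hz, hχβ y y.2, af_apply]

end FusionSystem

end Pool.Agent.W452.FS
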