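import Pool.Agent.W452.FS.Term2

/-!
# Invariance of the terms
-/

namespace Pool.Agent.W452.FS

universe u v

variable {G : Type u} [Group G]

namespace FusionSystem

variable {F : FusionSystem G} {σ : Set (Subgroup G)} {x : G} {P : Subgroup G}

theorem _root_.Pool.Agent.W452.FS.Good.image {S : Subgroup G} (h : Good F.S σ P) {g : G → G}
    (hg : F.Mor (sSup σ ⊔ P) g) (_hS : S = F.S) : Good F.S (im g '' σ) (im g P) where
  ne_bot := by
    rintro _ ⟨Q, hQ, rfl⟩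
    exact hg.im_ne_bot ((le_sSup hQ).trans le_sup_left) (h.ne_bot Q hQ)
  le := by
    rintro _ ⟨Q, hQ, rfl⟩
    exact hg.im_le ((le_sSup hQ).trans le_sup_left)
  chain := isChain_image g h.chain
  normal := by
    rintro _ ⟨Q, hQ, rfl⟩
    rw [← im_sSup hg.mulOn fun Q hQ => (le_sSup hQ).trans le_sup_left]
    exact hg.im_le_normalizer ((le_sSup hQ).trans le_sup_left) le_sup_left (h.normal Q hQ)
  P_le := hg.im_le le_sup_right
  P_ne := hg.im_ne_bot le_sup_right h.P_ne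
  P_normal := by
    rintro _ ⟨Q, hQ, rfl⟩
    exact hg.im_le_normalizer ((le_sSup hQ).trans le_sup_left) le_sup_right (h.P_normal Q hQ)

theorem sSup_image_sup {g : G → G} (hg : F.Mor (sSup σ ⊔ P) g) :
    sSup (im g '' σ) ⊔ im g P = im g (sSup σ ⊔ P) := by
  rw [← im_sSup hg.mulOn fun Q hQ => (le_sSup hQ).trans le_sup_left,
    im_sup hg.mulOn le_sup_left le_sup_right]

theorem IsTriple.image (h : F.IsTriple σ x P) {g : G → G} (hg : F.Mor (sSup σ ⊔ P) g) :
    F.IsTriple (im g '' σ) (g x) (im g P) where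
  good := h.good.image hg rfl
  x_mem := mem_im_of_mem g h.x_mem
  x_comm := by
    intro y hy
    rw [mem_im (hg.mulOn.mono le_sup_right)] at hy
    obtain ⟨z, hz, rfl⟩ := hy
    have hzR := (le_sup_right : P ≤ sSup σ ⊔ P) hz
    have hxR := (le_sup_right : P ≤ sSup σ ⊔ P) h.x_mem
    rw [← hg.mulOn _ hzR _ hxR, ← hg.mulOn _ hxR _ hzR, h.x_comm z hz]
  centric := by
    intro g' hg' c hc hcQ hcP
    rw [sSup_image_sup hg] at hg'
    have hcomp : F.Mor (sSup σ ⊔ P) (g' ∘ g) := hg.comp hg' fun y hy => mem_im_of_mem g hy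
    have := h.centric _ hcomp c hc (by
      intro Q hQ
      rw [im_comp hg.mulOn Q ((le_sSup hQ).trans le_sup_left)]
      exact hcQ _ ⟨Q, hQ, rfl⟩) (fun y hy => hcP _ (mem_im_of_mem g hy))
    rwa [im_comp hg.mulOn P le_sup_right] at this

theorem aset_iff {R R' : Subgroup G} {g : G → G} (hg : F.Mor R g) (hgR : im g R = R')
    (hσ : sSup σ ≤ R) (hx : x ∈ R) (hP : P ≤ R)
    (χ : MulAut R) (χ' : MulAut R') (hχ : ∀ y ∈ R, af χ' (g y) = g (af χ y)) :
    χ ∈ aset F R σ x P ↔ χ' ∈ aset F R' (im g '' σ) (g x) (im g P) := by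
  obtain ⟨e, he, heg⟩ := hg.exists_equiv hgR
  have hχ' : χ' = MulAut.congr e χ := by
    refine aut_ext fun y hy => ?_
    rw [← hgR, mem_im hg.mulOn] at hy
    obtain ⟨z, hz, rfl⟩ := hy
    rw [hχ z hz, af_congr e g heg χ hz]
  have h1 : χ ∈ F.Aut R ↔ χ' ∈ F.Aut R' := by
    rw [hχ']
    constructor
    · exact he.congr_mem
    · intro h
      have := he.symm.congr_mem h
      have h2 : MulAut.congr e.symm (MulAut.congr e χ) = χ := by
        ext y; simp [MulAut.congr]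
      rwa [h2] at this
  have h2 : ∀ Q ≤ R, im (af χ) Q = Q ↔ im (af χ') (im g Q) = im g Q := by
    intro Q hQ
    have h3 : im (af χ') (im g Q) = im g (im (af χ) Q) := by
      rw [← im_comp hg.mulOn Q hQ, ← im_comp (mulOn_af χ) Q hQ]
      exact im_congr fun y hy => hχ y (hQ hy)
    rw [h3]
    constructor
    · intro h
      rw [h]
    · intro h
      refine hg.im_inj ?_ hQ h
      intro y hy
      rw [mem_im ((mulOn_af χ).mono hQ)] at hy
      obtain ⟨z, hz, rfl⟩ := hy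
      exact af_mem χ (hQ hz)
  have h4 : af χ x = x ↔ af χ' (g x) = g x := by
    rw [hχ x hx]
    constructor
    · intro h
      rw [h]
    · intro h
      exact hg.inj (af_mem χ hx) hx h
  constructor
  · rintro ⟨a1, a2, a3⟩
    refine ⟨h1.1 a1, ⟨?_, ?_⟩, (h2 P hP).1 a3⟩
    · rintro _ ⟨Q, hQ, rfl⟩
      exact (h2 Q ((le_sSup hQ).trans hσ)).1 (a2.1 Q hQ)
    · intro y hy
      rw [Set.mem_singleton_iff.1 hy]
      exact h4.1 (a2.2 x rfl)
  · rintro ⟨a1, a2, a3⟩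
    refine ⟨h1.2 a1, ⟨?_, ?_⟩, (h2 P hP).2 a3⟩
    · intro Q hQ
      exact (h2 Q ((le_sSup hQ).trans hσ)).2 (a2.1 _ ⟨Q, hQ, rfl⟩)
    · intro y hy
      rw [Set.mem_singleton_iff.1 hy]
      exact h4.2 (a2.2 _ rfl)

theorem zpowers_span_le {R : Subgroup G} (hx : x ∈ R) : span ∅ {x} ≤ R := by
  rw [span_elem, Subgroup.zpowers_le]
  exact hx

variable [Finite G] {p : ℕ} [Fact p.Prime]

theorem tterm_conj (hsat : F.IsSaturated p) (hp : IsPGroup p F.S) {k : Type v} [Field k]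
    {α : F.Family k} (hα : α.IsoInvariant) (h : F.IsTriple σ x P) {g : G → G}
    (hg : F.Mor (sSup σ ⊔ P) g) :
    tterm α σ x P = tterm α (im g '' σ) (g x) (im g P) := by
  have h' := h.image hg
  have hR : span σ ∅ ⊔ (span ∅ {x} ⊔ P) = sSup σ ⊔ P := span_sup_sup h.x_mem
  have hR' : span (im g '' σ) ∅ ⊔ (span ∅ {g x} ⊔ im g P) = sSup (im g '' σ) ⊔ im g P :=
    span_sup_sup h'.x_mem
  have hg1 : F.Mor (span σ ∅ ⊔ (span ∅ {x} ⊔ P)) g := by rw [hR]; exact hg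
  have hgR : im g (span σ ∅ ⊔ (span ∅ {x} ⊔ P)) =
      span (im g '' σ) ∅ ⊔ (span ∅ {g x} ⊔ im g P) := by
    rw [hR, hR', sSup_image_sup hg]
  have hPR : P ≤ span σ ∅ ⊔ (span ∅ {x} ⊔ P) := le_sup_right.trans le_sup_right
  refine (h.rep hsat hp α).zTw_eq hα (h'.rep hsat hp α) ?_ ?_ hPR hg1 hgR rfl ?_
  · rw [hR]; exact h.centric_sup
  · rw [hR']; exact h'.centric_sup
  · exact fun χ χ' hχ => aset_iff hg1 hgR (by rw [hR]; exact le_sup_left) (hPR h.x_mem) hPR χ χ' hχ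

theorem IsTriple.toggle (hp : IsPGroup p F.S) (h : F.IsTriple σ x P) :
    F.IsTriple (toggle σ P) x P where
  good := h.good.toggle
  x_mem := h.x_mem
  x_comm := h.x_comm
  centric := by
    intro g hg c hc hcQ hcP
    have hsup := h.good.sSup_toggle hp
    rw [hsup] at hg
    have hD : im g (sSup σ ⊔ P) ≤ F.S := hg.im_le le_rfl
    refine h.centric g hg c hc ?_ hcP
    intro Q hQ
    -- `σ` is the toggle of `toggle σ P`
    have h1 : FS.toggle (FS.toggle σ P) P = σ := h.good.toggle_toggle hp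
    have h2 : sSup (FS.toggle σ P) ≤ sSup σ ⊔ P := by rw [← hsup]; exact le_sup_left
    have h3 : FS.toggle (im g '' FS.toggle σ P) (im g P) = im g '' σ := by
      rw [hg.toggle h2 le_sup_right, h1]
    have hcS : F.Mor F.S (FS.cj c) := Mor.cj hc le_rfl
    have h4 := toggle_fixed hcS (τ := im g '' FS.toggle σ P) (P := im g P) ?_ ?_ ?_ ?_
    · rw [h3] at h4
      exact h4 _ ⟨Q, hQ, rfl⟩
    · rw [← im_sSup hg.mulOn fun Q hQ => (le_sSup hQ).trans h2]
      exact (im_mono g h2).trans hD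
    · exact (im_mono g le_sup_right).trans hD
    · rintro _ ⟨Q, hQ, rfl⟩
      exact hcQ Q hQ
    · have : im (FS.cj c) (im g P) = im id (im g P) := by
        refine im_congr fun y hy => ?_
        rw [mem_im (hg.mulOn.mono le_sup_right)] at hy
        obtain ⟨z, hz, rfl⟩ := hy
        rw [FS.cj, id, mul_inv_eq_iff_eq_mul]
        exact hcP z hz
      rw [this, im_id]

theorem tterm_toggle (hsat : F.IsSaturated p) (hp : IsPGroup p F.S) {k : Type v} [Field k]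
    {α : F.Family k} (hα : α.IsoInvariant) (h : F.IsTriple σ x P) :
    tterm α (toggle σ P) x P = tterm α σ x P := by
  have h' := h.toggle hp
  have hR : span σ ∅ ⊔ (span ∅ {x} ⊔ P) = sSup σ ⊔ P := span_sup_sup h.x_mem
  have hR' : span (toggle σ P) ∅ ⊔ (span ∅ {x} ⊔ P) = sSup (toggle σ P) ⊔ P :=
    span_sup_sup h'.x_mem
  have hRR : span σ ∅ ⊔ (span ∅ {x} ⊔ P) = span (toggle σ P) ∅ ⊔ (span ∅ {x} ⊔ P) := by
    rw [hR, hR', h.good.sSup_toggle hp]
  have hRS : span σ ∅ ⊔ (span ∅ {x} ⊔ P) ≤ F.S := by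
    rw [hR]; exact sup_le h.good.sSup_le h.good.P_le
  have hid : F.Mor (span σ ∅ ⊔ (span ∅ {x} ⊔ P)) id := Mor.id' hRS
  have hgR : im id (span σ ∅ ⊔ (span ∅ {x} ⊔ P)) =
      span (toggle σ P) ∅ ⊔ (span ∅ {x} ⊔ P) := by rw [im_id, hRR]
  have hPR : P ≤ span σ ∅ ⊔ (span ∅ {x} ⊔ P) := le_sup_right.trans le_sup_right
  symm
  refine (h.rep hsat hp α).zTw_eq hα (h'.rep hsat hp α) ?_ ?_ hPR hid hgR (im_id P) ?_
  · rw [hR]; exact h.centric_sup
  · rw [hR']; exact h'.centric_sup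
  · intro χ χ' hχ
    have h1 := aset_iff hid hgR (σ := σ) (x := x) (P := P) (by rw [hR]; exact le_sup_left)
      (hPR h.x_mem) hPR χ χ' hχ
    have e1 : im id '' σ = σ := by
      ext Q
      constructor
      · rintro ⟨Q, hQ, rfl⟩
        rwa [im_id]
      · intro hQ
        exact ⟨Q, hQ, im_id Q⟩
    rw [e1, im_id, id] at h1
    rw [h1]
    have hle : sSup σ ≤ span (toggle σ P) ∅ ⊔ (span ∅ {x} ⊔ P) := by
      rw [← hRR, hR]; exact le_sup_left
    have hle' : sSup (toggle σ P) ≤ span (toggle σ P) ∅ ⊔ (span ∅ {x} ⊔ P) := by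
      rw [hR']; exact le_sup_left
    have hPle : P ≤ span (toggle σ P) ∅ ⊔ (span ∅ {x} ⊔ P) := le_sup_right.trans le_sup_right
    have hRS' : span (toggle σ P) ∅ ⊔ (span ∅ {x} ⊔ P) ≤ F.S := by rw [← hRR]; exact hRS
    constructor
    · rintro ⟨a1, a2, a3⟩
      refine ⟨a1, ⟨?_, a2.2⟩, a3⟩
      exact toggle_fixed ((mem_aut_iff' hRS').1 a1) hle hPle a2.1 a3
    · rintro ⟨a1, a2, a3⟩
      refine ⟨a1, ⟨?_, a2.2⟩, a3⟩
      have := toggle_fixed ((mem_aut_iff' hRS').1 a1) hle' hPle a2.1 a3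
      rwa [h.good.toggle_toggle hp] at this

theorem tterm_empty (hsat : F.IsSaturated p) (hp : IsPGroup p F.S) {k : Type v} [Field k]
    {α : F.Family k} (hα : α.IsoInvariant) (h : F.IsTriple ∅ x P) :
    tterm α ∅ x P = zTw ((α.res ∅ {x}) P) := by
  have hR : span ∅ ∅ ⊔ (span ∅ {x} ⊔ P) = sSup ∅ ⊔ P := span_sup_sup h.x_mem
  have hRR : span ∅ ∅ ⊔ (span ∅ {x} ⊔ P) = span ∅ {x} ⊔ P := by
    rw [span_empty_right, sSup_empty, bot_sup_eq]
  have hRS : span ∅ ∅ ⊔ (span ∅ {x} ⊔ P) ≤ F.S := by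
    rw [hR]; exact sup_le h.good.sSup_le h.good.P_le
  have hid : F.Mor (span ∅ ∅ ⊔ (span ∅ {x} ⊔ P)) id := Mor.id' hRS
  have hgR : im id (span ∅ ∅ ⊔ (span ∅ {x} ⊔ P)) = span ∅ {x} ⊔ P := by rw [im_id, hRR]
  have hPR : P ≤ span ∅ ∅ ⊔ (span ∅ {x} ⊔ P) := le_sup_right.trans le_sup_right
  refine (h.rep hsat hp α).zTw_eq hα (h.rep_pair α) ?_ ?_ hPR hid hgR (im_id P) ?_
  · rw [hR]; exact h.centric_sup
  · rw [← hRR, hR]; exact h.centric_sup
  · intro χ χ' hχ
    have h1 := aset_iff hid hgR (σ := ∅) (x := x) (P := P) (by simp)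
      (hPR h.x_mem) hPR χ χ' hχ
    rwa [Set.image_empty, im_id, id] at h1

end FusionSystem

end Pool.Agent.W452.FS
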